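import Pool.Agent.Lib.MP_3d1d78_an.Defs

/-!
The determinant and the adjugate of the matrix `MM`.
-/

set_option autoImplicit false

namespace Pool.Agent.Lib.MP_3d1d78_an

theorem det_MM {c s C S u z : ℝ} (h1 : c ^ 2 + s ^ 2 = 1) (h2 : C ^ 2 + S ^ 2 = 1) :
    (MM c s C S u z).det = u * (1 - s ^ 2 * S ^ 2) := by
  have hN : MM c s C S u z = !![u * s, c, 0; u * (S - z * C), 0, C;
      u * (c * C + z * c * S), -(s * C), -(c * S)] * !![c, s, 0; -s, c, 0; 0, 0, 1] := by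
    ext i j
    fin_cases i <;> fin_cases j <;>
      simp [MM, Matrix.mul_apply, Fin.sum_univ_three]
    · ring
    · linear_combination (-1) * h1
    · ring
    · ring
    · linear_combination (-C) * h1
    · ring
  rw [hN, Matrix.det_mul, Matrix.det_fin_three, Matrix.det_fin_three]
  simp
  linear_combination (u * (c ^ 2 * C ^ 2 + c ^ 2 * S ^ 2 + s ^ 2 * C ^ 2)) * h1
    + (u * c ^ 2) * h2 + (u * s ^ 2) * h2 + u * (1 - S ^ 2) * h1 + u * S ^ 2 * h1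

theorem adj_MM {c s C S u z : ℝ} (h1 : c ^ 2 + s ^ 2 = 1) :
    (MM c s C S u z).adjugate = !![c, -s, 0; s, c, 0; 0, 0, 1] *
      !![s * C ^ 2, c ^ 2 * S, c * C;
        u * (c * (S ^ 2 + C ^ 2)), -(u * (s * c * S)), -(u * (s * C));
        u * (s * C * (z * C - S)), u * (C + z * c ^ 2 * S), u * (c * (z * C - S))] := by
  have hN : MM c s C S u z = !![u * s, c, 0; u * (S - z * C), 0, C;
      u * (c * C + z * c * S), -(s * C), -(c * S)] * !![c, s, 0; -s, c, 0; 0, 0, 1] := by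
    ext i j
    fin_cases i <;> fin_cases j <;>
      simp [MM, Matrix.mul_apply, Fin.sum_univ_three]
    · ring
    · linear_combination (-1) * h1
    · ring
    · ring
    · linear_combination (-C) * h1
    · ring
  rw [hN, Matrix.adjugate_mul_distrib]
  congr 1
  · rw [Matrix.adjugate_fin_three]
    ext i j
    fin_cases i <;> fin_cases j <;> simp
    linear_combination h1
  · rw [Matrix.adjugate_fin_three]
    ext i j
    fin_cases i <;> fin_cases j <;> simp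
    · ring
    · ring
    · ring
    · ring
    · ring
    · ring
    · linear_combination (u * C) * h1
    · ring

theorem ineq_aux {c s C S z : ℝ} (h1 : c ^ 2 + s ^ 2 = 1) (h2 : C ^ 2 + S ^ 2 = 1)
    (hz : z ^ 2 ≤ 1) :
    (s * C ^ 2) ^ 2 + (c ^ 2 * S) ^ 2 + (c * C) ^ 2 ≤ 2 * (1 - s ^ 2 * S ^ 2) ∧
    (c * (S ^ 2 + C ^ 2)) ^ 2 + (s * c * S) ^ 2 + (s * C) ^ 2 ≤ 2 * (1 - s ^ 2 * S ^ 2) ∧
    (s * C * (z * C - S)) ^ 2 + (C + z * c ^ 2 * S) ^ 2 + (c * (z * C - S)) ^ 2 ≤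
      4 * (1 - s ^ 2 * S ^ 2) := by
  have hc : c ^ 2 = 1 - s ^ 2 := by linarith
  have hC : C ^ 2 = 1 - S ^ 2 := by linarith
  set a := s ^ 2 with ha
  set b := S ^ 2 with hb
  have ha0 : 0 ≤ a := sq_nonneg s
  have hb0 : 0 ≤ b := sq_nonneg S
  have ha1 : 0 ≤ 1 - a := hc ▸ sq_nonneg c
  have hb1 : 0 ≤ 1 - b := hC ▸ sq_nonneg C
  have hab : 0 ≤ a * (1 - b) := mul_nonneg ha0 hb1
  have hab' : 0 ≤ (1 - a) * (1 - b) := mul_nonneg ha1 hb1
  have hab'' : 0 ≤ (1 - a) * b := mul_nonneg ha1 hb0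
  have hab3 : 0 ≤ a * b := mul_nonneg ha0 hb0
  refine ⟨?_, ?_, ?_⟩
  · have h : (s * C ^ 2) ^ 2 + (c ^ 2 * S) ^ 2 + (c * C) ^ 2 =
        a * (1 - b) ^ 2 + (1 - a) ^ 2 * b + (1 - a) * (1 - b) := by
      rw [mul_pow, mul_pow, mul_pow, hc, hC]
    rw [h]
    nlinarith [mul_nonneg hab hb0, mul_nonneg hab'' ha0]
  · have h : (c * (b + C ^ 2)) ^ 2 + (s * c * S) ^ 2 + (s * C) ^ 2 =
        (1 - a) + a * (1 - a) * b + a * (1 - b) := by
      rw [mul_pow, mul_pow, mul_pow, mul_pow, hc, hC]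
      ring
    rw [h]
    nlinarith [mul_nonneg hab'' ha0, mul_nonneg ha1 hb1]
  · have h3 : (z * C - S) ^ 2 ≤ 2 := by
      nlinarith [sq_nonneg (C + z * S), mul_nonneg (sub_nonneg.2 hz) (sq_nonneg C),
        mul_nonneg (sub_nonneg.2 hz) (sq_nonneg S)]
    have h4 : (C + z * c ^ 2 * S) ^ 2 ≤ 2 * (1 - a * b) := by
      have h5 : (C + z * c ^ 2 * S) ^ 2 ≤ (1 + z ^ 2) * (C ^ 2 + (c ^ 2 * S) ^ 2) := by
        nlinarith [sq_nonneg (z * C - c ^ 2 * S)]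
      have h6 : C ^ 2 + (c ^ 2 * S) ^ 2 ≤ 1 - a * b := by
        rw [mul_pow, hc, hC]
        nlinarith [mul_nonneg hab'' ha0]
      have h7 : 0 ≤ C ^ 2 + (c ^ 2 * S) ^ 2 := by positivity
      calc _ ≤ _ := h5
        _ ≤ 2 * (C ^ 2 + (c ^ 2 * S) ^ 2) := by
          apply mul_le_mul_of_nonneg_right _ h7; linarith
        _ ≤ _ := by linarith
    have h8 : (s * C * (z * C - S)) ^ 2 + (c * (z * C - S)) ^ 2 = (1 - a * b) * (z * C - S) ^ 2 := by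
      rw [mul_pow, mul_pow, mul_pow, hc, hC]
      ring
    have h9 : 0 ≤ 1 - a * b := by nlinarith
    have h10 : (1 - a * b) * (z * C - S) ^ 2 ≤ (1 - a * b) * 2 :=
      mul_le_mul_of_nonneg_left h3 h9
    linarith

theorem sum_adj_MM {c s C S u z : ℝ} (h1 : c ^ 2 + s ^ 2 = 1) (h2 : C ^ 2 + S ^ 2 = 1)
    (hz : z ^ 2 ≤ 1) (hu : 1 ≤ 2 * u ^ 2) :
    ∑ i, ∑ j, ((MM c s C S u z).adjugate i j) ^ 2 ≤ 10 * u ^ 2 * (1 - s ^ 2 * S ^ 2) := by
  obtain ⟨i1, i2, i3⟩ := ineq_aux h1 h2 hz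
  have hd : 0 ≤ 1 - s ^ 2 * S ^ 2 := by
    nlinarith [sq_nonneg (s * C ^ 2), sq_nonneg (c ^ 2 * S), sq_nonneg (c * C)]
  have key : ∑ i, ∑ j, ((MM c s C S u z).adjugate i j) ^ 2 =
      ((s * C ^ 2) ^ 2 + (c ^ 2 * S) ^ 2 + (c * C) ^ 2) +
      u ^ 2 * ((c * (S ^ 2 + C ^ 2)) ^ 2 + (s * c * S) ^ 2 + (s * C) ^ 2) +
      u ^ 2 * ((s * C * (z * C - S)) ^ 2 + (C + z * c ^ 2 * S) ^ 2 + (c * (z * C - S)) ^ 2) := by
    rw [adj_MM h1]
    simp only [Matrix.mul_apply, Fin.sum_univ_three]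
    simp
    linear_combination (((s * C ^ 2) ^ 2 + (c ^ 2 * S) ^ 2 + (c * C) ^ 2) +
      u ^ 2 * ((c * (S ^ 2 + C ^ 2)) ^ 2 + (s * c * S) ^ 2 + (s * C) ^ 2)) * h1
  rw [key]
  have hu0 : 0 ≤ u ^ 2 := sq_nonneg u
  have j2 := mul_le_mul_of_nonneg_left i2 hu0
  have j3 := mul_le_mul_of_nonneg_left i3 hu0
  have j4 := mul_le_mul_of_nonneg_right hu hd
  nlinarith

end Pool.Agent.Lib.MP_3d1d78_an
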