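import Mathlib

/-!
The map `f (x, y, z) = exp (-1/r) (y / r, sin (z / r), (x / r) cos (z / r))`, `r = √(x² + y²)`,
extended by `0` to the axis `r = 0`, and its derivative.
-/

set_option autoImplicit false

namespace Pool.Agent.Lib.MP_3d1d78_an

/-- The inverse distance to the axis (`0` on the axis). -/
noncomputable def uu (x : Fin 3 → ℝ) : ℝ := (Real.sqrt (x 0 ^ 2 + x 1 ^ 2))⁻¹

/-- The map. -/
noncomputable def ff (x : Fin 3 → ℝ) : Fin 3 → ℝ :=
  ![Real.exp (-uu x) * (x 1 * uu x), Real.exp (-uu x) * Real.sin (x 2 * uu x),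
    Real.exp (-uu x) * (x 0 * uu x * Real.cos (x 2 * uu x))]

/-- The normalised derivative matrix, as a function of `c = x / r`, `s = y / r`,
`C = cos (z / r)`, `S = sin (z / r)`, `u = 1 / r` and `z`. -/
def MM (c s C S u z : ℝ) : Matrix (Fin 3) (Fin 3) ℝ :=
  !![c * s * (u - 1), 1 + s ^ 2 * (u - 1), 0;
    -(c * u * (z * C - S)), -(s * u * (z * C - S)), C;
    C - c ^ 2 * ((1 - u) * C - u * z * S), -(c * s * ((1 - u) * C - u * z * S)), -(c * S)]

/-- The derivative matrix of `ff`. -/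
noncomputable def DD (x : Fin 3 → ℝ) : Matrix (Fin 3) (Fin 3) ℝ :=
  (Real.exp (-uu x) * uu x) • MM (x 0 * uu x) (x 1 * uu x) (Real.cos (x 2 * uu x))
    (Real.sin (x 2 * uu x)) (uu x) (x 2)

end Pool.Agent.Lib.MP_3d1d78_an
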