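import Pool.Agent.Lib.MP_3d1d78_an.Defs

/-!
The map `ff` is differentiable everywhere, with derivative `DD`.
-/

set_option autoImplicit false

open Filter Topology

namespace Pool.Agent.Lib.MP_3d1d78_an

/-- The `i`-th row of the derivative matrix as a linear form. -/
noncomputable def row (x : Fin 3 → ℝ) (i : Fin 3) : (Fin 3 → ℝ) →L[ℝ] ℝ :=
  ∑ j, DD x i j • (ContinuousLinearMap.proj j : (Fin 3 → ℝ) →L[ℝ] ℝ)

theorem row_single (x : Fin 3 → ℝ) (i j : Fin 3) : row x i (Pi.single j 1) = DD x i j := by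
  simp [row, Pi.single_apply]

/-- The squared distance to the axis. -/
def qq (x : Fin 3 → ℝ) : ℝ := x 0 ^ 2 + x 1 ^ 2

theorem qq_nonneg (x : Fin 3 → ℝ) : 0 ≤ qq x := by unfold qq; positivity

theorem uu_nonneg (x : Fin 3 → ℝ) : 0 ≤ uu x := by unfold uu; positivity

theorem uu_pos {x : Fin 3 → ℝ} (h : 0 < qq x) : 0 < uu x := by
  unfold uu
  exact inv_pos.2 (Real.sqrt_pos.2 h)

theorem uu_sq {x : Fin 3 → ℝ} (h : 0 < qq x) : uu x ^ 2 * (x 0 ^ 2 + x 1 ^ 2) = 1 := by
  have h' : x 0 ^ 2 + x 1 ^ 2 ≠ 0 := h.ne'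
  unfold uu
  rw [inv_pow, Real.sq_sqrt (show 0 ≤ x 0 ^ 2 + x 1 ^ 2 from qq_nonneg x), inv_mul_cancel₀ h']

theorem uu_zero {x : Fin 3 → ℝ} (h : qq x = 0) : uu x = 0 := by
  unfold uu
  change (Real.sqrt (qq x))⁻¹ = 0
  rw [h]; simp

abbrev p (i : Fin 3) : (Fin 3 → ℝ) →L[ℝ] ℝ := ContinuousLinearMap.proj i

theorem hasFDerivAt_p (i : Fin 3) (x : Fin 3 → ℝ) : HasFDerivAt (fun x : Fin 3 → ℝ => x i) (p i) x :=
  (p i).hasFDerivAt

theorem hasFDerivAt_uu {x : Fin 3 → ℝ} (h : 0 < qq x) :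
    HasFDerivAt uu ((-(uu x ^ 3)) • (x 0 • p 0 + x 1 • p 1)) x := by
  have hq : HasFDerivAt (fun x : Fin 3 → ℝ => x 0 ^ 2 + x 1 ^ 2)
      ((2 * x 0) • p 0 + (2 * x 1) • p 1) x := by
    have h0 := (hasFDerivAt_p 0 x).pow 2
    have h1 := (hasFDerivAt_p 1 x).pow 2
    refine (h0.add h1).congr_fderiv ?_
    ext v
    simp
  have hs := (Real.hasDerivAt_sqrt h.ne').inv (Real.sqrt_pos.2 h).ne'
  have hc := hs.comp_hasFDerivAt x hq
  refine hc.congr_fderiv ?_
  have hpos := Real.sqrt_pos.2 h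
  have hne := hpos.ne'
  have hu : uu x = (Real.sqrt (qq x))⁻¹ := rfl
  ext v
  simp only [smul_apply, add_apply, ContinuousLinearMap.proj_apply, smul_eq_mul, hu]
  field_simp

theorem ff_zero_apply {x : Fin 3 → ℝ} (h : qq x = 0) (i : Fin 3) : ff x i = 0 := by
  fin_cases i <;> simp [ff, uu_zero h]

theorem row_zero {x : Fin 3 → ℝ} (h : qq x = 0) (i : Fin 3) : row x i = 0 := by
  unfold row DD
  rw [uu_zero h]
  simp

theorem abs_ff_le {x : Fin 3 → ℝ} (i : Fin 3) : |ff x i| ≤ 2 * qq x := by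
  rcases (qq_nonneg x).eq_or_lt with h | h
  · rw [ff_zero_apply h.symm, ← h]; simp
  have hu := uu_pos h
  have husq := uu_sq h
  have he : Real.exp (-uu x) ≤ 2 * qq x := by
    have h1 : uu x ^ 2 / 2 ≤ Real.exp (uu x) := by
      have := Real.quadratic_le_exp_of_nonneg hu.le
      nlinarith
    rw [Real.exp_neg]
    rw [inv_le_comm₀ (Real.exp_pos _) (by positivity)]
    refine le_trans (le_of_eq ?_) h1
    unfold qq
    rw [inv_eq_iff_eq_inv, inv_div]
    rw [eq_div_iff (by positivity)]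
    linear_combination 2 * husq
  have hE := Real.exp_pos (-uu x)
  have hb : ∀ a : ℝ, |a| ≤ 1 → |Real.exp (-uu x) * a| ≤ 2 * qq x := by
    intro a ha
    rw [abs_mul, abs_of_pos hE]
    calc Real.exp (-uu x) * |a| ≤ Real.exp (-uu x) * 1 := by gcongr
      _ ≤ 2 * qq x := by rw [mul_one]; exact he
  have h0 : |x 0 * uu x| ≤ 1 := by
    rw [← sq_le_one_iff_abs_le_one]
    nlinarith [sq_nonneg (x 1 * uu x)]
  have h1 : |x 1 * uu x| ≤ 1 := by
    rw [← sq_le_one_iff_abs_le_one]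
    nlinarith [sq_nonneg (x 0 * uu x)]
  fin_cases i
  · exact hb _ h1
  · exact hb _ (Real.abs_sin_le_one _)
  · refine hb _ ?_
    rw [abs_mul]
    exact mul_le_one₀ h0 (abs_nonneg _) (Real.abs_cos_le_one _)

theorem hasFDerivAt_ff (x : Fin 3 → ℝ) (i : Fin 3) : HasFDerivAt (fun x => ff x i) (row x i) x := by
  rcases (qq_nonneg x).eq_or_lt with h | h
  · rw [row_zero h.symm]
    refine Asymptotics.IsBigO.hasFDerivAt (n := 2) ?_ (by norm_num)
    refine Asymptotics.IsBigO.of_bound 4 (Eventually.of_forall fun y => ?_)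
    have hx0 : x 0 = 0 := by
      have := h.symm; unfold qq at this
      nlinarith [sq_nonneg (x 0), sq_nonneg (x 1)]
    have hx1 : x 1 = 0 := by
      have := h.symm; unfold qq at this
      nlinarith [sq_nonneg (x 0), sq_nonneg (x 1)]
    have hy0 : |y 0| ≤ ‖y - x‖ := by
      have := norm_le_pi_norm (y - x) 0
      simpa [hx0] using this
    have hy1 : |y 1| ≤ ‖y - x‖ := by
      have := norm_le_pi_norm (y - x) 1
      simpa [hx1] using this
    have h1 : qq y ≤ 2 * ‖y - x‖ ^ 2 := by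
      unfold qq
      have h2 : y 0 ^ 2 ≤ ‖y - x‖ ^ 2 := by
        rw [← sq_abs (y 0)]; gcongr
      have h3 : y 1 ^ 2 ≤ ‖y - x‖ ^ 2 := by
        rw [← sq_abs (y 1)]; gcongr
      linarith
    rw [Real.norm_eq_abs, norm_pow, norm_norm]
    calc |ff y i| ≤ 2 * qq y := abs_ff_le i
      _ ≤ 4 * ‖y - x‖ ^ 2 := by linarith
  · have hu := hasFDerivAt_uu h
    have hE := hu.neg.exp
    have h0 := hasFDerivAt_p 0 x
    have h1 := hasFDerivAt_p 1 x
    have h2 := hasFDerivAt_p 2 x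
    have hzu := h2.mul hu
    have hS := hzu.sin
    have hC := hzu.cos
    fin_cases i
    · refine (hE.mul (h1.mul hu)).congr_fderiv ?_
      ext v
      simp [row, DD, MM, Fin.sum_univ_three]
      ring
    · refine (hE.mul hS).congr_fderiv ?_
      ext v
      simp [row, DD, MM, Fin.sum_univ_three]
      ring
    · refine (hE.mul ((h0.mul hu).mul hC)).congr_fderiv ?_
      ext v
      simp [row, DD, MM, Fin.sum_univ_three]
      ring

theorem differentiable_ff (i : Fin 3) : Differentiable ℝ (fun x => ff x i) :=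
  fun x => (hasFDerivAt_ff x i).differentiableAt

theorem continuous_ff (i : Fin 3) : Continuous (fun x => ff x i) := (differentiable_ff i).continuous

end Pool.Agent.Lib.MP_3d1d78_an
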