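import Pool.Agent.Lib.MP_3d1d78_an.Int
import Pool.Agent.Lib.MP_3d1d78_an.Alg

/-!
The inner distortion of `ff` lies in `L^{3/2}` of the cube.
-/

set_option autoImplicit false

open MeasureTheory Set Real

namespace Pool.Agent.Lib.MP_3d1d78_an

/-- The quantity `δ`. -/
noncomputable def dl (x : Fin 3 → ℝ) : ℝ := 1 - (x 1 * uu x) ^ 2 * Real.sin (x 2 * uu x) ^ 2

theorem cs_one {x : Fin 3 → ℝ} (h : 0 < qq x) : (x 0 * uu x) ^ 2 + (x 1 * uu x) ^ 2 = 1 := by
  linear_combination uu_sq h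

theorem CS_one (t : ℝ) : Real.cos t ^ 2 + Real.sin t ^ 2 = 1 := by
  rw [add_comm]; exact Real.sin_sq_add_cos_sq t

theorem det_DD {x : Fin 3 → ℝ} (h : 0 < qq x) :
    (DD x).det = (Real.exp (-uu x) * uu x) ^ 3 * (uu x * dl x) := by
  unfold DD
  rw [Matrix.det_smul, det_MM (cs_one h) (CS_one _)]
  simp [dl]

theorem c_sq_le_dl {x : Fin 3 → ℝ} (h : 0 < qq x) : (x 0 * uu x) ^ 2 ≤ dl x := by
  have h1 := cs_one h
  have h2 := CS_one (x 2 * uu x)
  unfold dl
  nlinarith [mul_nonneg (sq_nonneg (x 1 * uu x)) (sq_nonneg (Real.cos (x 2 * uu x)))]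

theorem C_sq_le_dl {x : Fin 3 → ℝ} (h : 0 < qq x) : (Real.cos (x 2 * uu x)) ^ 2 ≤ dl x := by
  have h1 := cs_one h
  have h2 := CS_one (x 2 * uu x)
  unfold dl
  nlinarith [mul_nonneg (sq_nonneg (x 0 * uu x)) (sq_nonneg (Real.sin (x 2 * uu x)))]

theorem qq_pos {x : Fin 3 → ℝ} (h : x 0 ≠ 0) : 0 < qq x := by unfold qq; positivity

theorem dl_pos {x : Fin 3 → ℝ} (h : x 0 ≠ 0) : 0 < dl x := by
  have hu := uu_pos (qq_pos h)
  exact lt_of_lt_of_le (by positivity) (c_sq_le_dl (qq_pos h))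

theorem det_DD_pos {x : Fin 3 → ℝ} (h : x 0 ≠ 0) : 0 < (DD x).det := by
  rw [det_DD (qq_pos h)]
  have hu := uu_pos (qq_pos h)
  have hd := dl_pos h
  positivity

theorem sum_adj_DD {x : Fin 3 → ℝ} (hx : x ∈ cube) (h : x 0 ≠ 0) :
    ∑ i, ∑ j, ((DD x).adjugate i j) ^ 2 ≤
      10 * (Real.exp (-uu x) * uu x) ^ 4 * uu x ^ 2 * dl x := by
  have hq := qq_pos h
  have hz : x 2 ^ 2 ≤ 1 := by
    have := hx 2 (mem_univ _)
    nlinarith [this.1, this.2]
  have hu : 1 ≤ 2 * uu x ^ 2 := by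
    have h1 := uu_sq hq
    have h0 := hx 0 (mem_univ _)
    have h0' := hx 1 (mem_univ _)
    have h2 : x 0 ^ 2 + x 1 ^ 2 ≤ 2 := by nlinarith [h0.1, h0.2, h0'.1, h0'.2]
    nlinarith [sq_nonneg (uu x)]
  have h1 := sum_adj_MM (u := uu x) (z := x 2) (cs_one hq) (CS_one (x 2 * uu x)) hz hu
  have h2 : ∑ i, ∑ j, ((DD x).adjugate i j) ^ 2 = (Real.exp (-uu x) * uu x) ^ 4 *
      ∑ i, ∑ j, ((MM (x 0 * uu x) (x 1 * uu x) (Real.cos (x 2 * uu x))
        (Real.sin (x 2 * uu x)) (uu x) (x 2)).adjugate i j) ^ 2 := by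
    unfold DD
    rw [Matrix.adjugate_smul, Finset.mul_sum]
    refine Finset.sum_congr rfl fun i _ => ?_
    rw [Finset.mul_sum]
    refine Finset.sum_congr rfl fun j _ => ?_
    simp only [Matrix.smul_apply, smul_eq_mul, Fintype.card_fin]
    ring
  rw [h2]
  have h3 : 0 ≤ (Real.exp (-uu x) * uu x) ^ 4 := by positivity
  calc _ ≤ (Real.exp (-uu x) * uu x) ^ 4 *
      (10 * uu x ^ 2 * (1 - (x 1 * uu x) ^ 2 * Real.sin (x 2 * uu x) ^ 2)) :=
        mul_le_mul_of_nonneg_left h1 h3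
    _ = _ := by unfold dl; ring

/-- The inner distortion. -/
noncomputable def KK (x : Fin 3 → ℝ) : ℝ :=
  if 0 < (DD x).det then
    (∑ i, ∑ j, ((DD x).adjugate i j) ^ 2) ^ (((3 : ℕ) : ℝ) / 2) / ((DD x).det) ^ (3 - 1)
  else 1

theorem measurable_KK : Measurable KK := by
  have h00 := measurable_DD 0 0
  have h01 := measurable_DD 0 1
  have h02 := measurable_DD 0 2
  have h10 := measurable_DD 1 0
  have h11 := measurable_DD 1 1
  have h12 := measurable_DD 1 2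
  have h20 := measurable_DD 2 0
  have h21 := measurable_DD 2 1
  have h22 := measurable_DD 2 2
  have hdet : Measurable fun x => (DD x).det := by
    simp only [Matrix.det_fin_three]
    fun_prop
  have hadj : ∀ i j, Measurable fun x => (DD x).adjugate i j := by
    intro i j
    simp only [Matrix.adjugate_fin_three]
    fin_cases i <;> fin_cases j <;> simp <;> fun_prop
  have hsum : Measurable fun x => ∑ i, ∑ j, ((DD x).adjugate i j) ^ 2 :=
    Finset.measurable_sum _ fun i _ => Finset.measurable_sum _ fun j _ => (hadj i j).pow_const 2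
  unfold KK
  exact Measurable.ite (measurableSet_lt measurable_const hdet)
    ((hsum.pow_const _).div (hdet.pow_const _)) measurable_const

theorem KK_nonneg (x : Fin 3 → ℝ) : 0 ≤ KK x := by
  unfold KK
  split_ifs with h
  · have : 0 ≤ ∑ i, ∑ j, ((DD x).adjugate i j) ^ 2 :=
      Finset.sum_nonneg fun i _ => Finset.sum_nonneg fun j _ => sq_nonneg _
    positivity
  · norm_num

theorem KK_sq_le {x : Fin 3 → ℝ} (hx : x ∈ cube) (h : x 0 ≠ 0) :
    KK x ^ 2 * dl x ≤ 1000 * uu x ^ 2 := by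
  have hq := qq_pos h
  have hu := uu_pos hq
  have hd := dl_pos h
  have hE := Real.exp_pos (-uu x)
  set N := ∑ i, ∑ j, ((DD x).adjugate i j) ^ 2 with hN
  have hN0 : 0 ≤ N := Finset.sum_nonneg fun i _ => Finset.sum_nonneg fun j _ => sq_nonneg _
  have hN1 := sum_adj_DD hx h
  rw [← hN] at hN1
  have hK : KK x = N ^ (((3 : ℕ) : ℝ) / 2) / ((DD x).det) ^ (3 - 1) := by
    unfold KK
    rw [if_pos (det_DD_pos h)]
  have hpow : (N ^ (((3 : ℕ) : ℝ) / 2)) ^ 2 = N ^ 3 := by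
    rw [← Real.rpow_natCast, ← Real.rpow_natCast, ← Real.rpow_mul hN0]
    norm_num
  have hdet := det_DD hq
  have hdet0 := det_DD_pos h
  rw [hK, div_pow, hpow, div_mul_eq_mul_div, div_le_iff₀ (by positivity), hdet]
  set k := Real.exp (-uu x) * uu x with hk
  have hk0 : 0 < k := by positivity
  have h3 : N ^ 3 ≤ (10 * k ^ 4 * uu x ^ 2 * dl x) ^ 3 := pow_le_pow_left₀ hN0 hN1 3
  calc N ^ 3 * dl x ≤ (10 * k ^ 4 * uu x ^ 2 * dl x) ^ 3 * dl x :=
        mul_le_mul_of_nonneg_right h3 hd.le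
    _ = 1000 * uu x ^ 2 * ((k ^ 3 * (uu x * dl x)) ^ (3 - 1)) ^ 2 := by
        norm_num
        ring

theorem enorm_KK_le {x : Fin 3 → ℝ} (hx : x ∈ cube) (h0 : x 0 ≠ 0) (h1 : x 1 ≠ 0) :
    ‖KK x‖ₑ ^ (3 / 2 : ℝ) ≤ ENNReal.ofReal (1000 ^ (3 / 4 : ℝ)) *
      (ga (x 0) * ga (x 1) * gb (x 2 * uu x)) := by
  have hq := qq_pos h0
  have hu := uu_pos hq
  have hd := dl_pos h0
  have hK := KK_nonneg x
  have hga0 : ga (x 0) ≠ 0 := by
    rw [ga_eq h0]
    exact (ENNReal.ofReal_pos.2 (Real.rpow_pos_of_pos (abs_pos.2 h0) _)).ne'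
  have hga1 : ga (x 1) ≠ 0 := by
    rw [ga_eq h1]
    exact (ENNReal.ofReal_pos.2 (Real.rpow_pos_of_pos (abs_pos.2 h1) _)).ne'
  rcases eq_or_ne (Real.cos (x 2 * uu x)) 0 with hc | hc
  · have : gb (x 2 * uu x) = ⊤ := by
      unfold gb
      rw [hc]
      simp
    rw [this, ENNReal.mul_top (mul_ne_zero hga0 hga1), ENNReal.mul_top]
    · exact le_top
    · exact (ENNReal.ofReal_pos.2 (by positivity)).ne'
  · have hc' := abs_pos.2 hc
    have h0' := abs_pos.2 h0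
    have h1' := abs_pos.2 h1
    rw [ga_eq h0, ga_eq h1, gb_eq hc, ← ENNReal.ofReal_mul (by positivity),
      ← ENNReal.ofReal_mul (by positivity), ← ENNReal.ofReal_mul (by positivity),
      Real.enorm_eq_ofReal hK, ENNReal.ofReal_rpow_of_nonneg hK (by norm_num)]
    apply ENNReal.ofReal_le_ofReal
    rw [← Real.mul_rpow (by positivity) (by positivity), ← Real.mul_rpow (by positivity) (by positivity)]
    set m := |x 0| * |x 1| * |Real.cos (x 2 * uu x)| with hm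
    have hm0 : 0 < m := by positivity
    rw [Real.rpow_neg hm0.le, ← Real.inv_rpow hm0.le, ← Real.mul_rpow (by norm_num) (by positivity)]
    have hK2 : KK x ^ (3 / 2 : ℝ) = (KK x ^ 2) ^ (3 / 4 : ℝ) := by
      rw [← Real.rpow_natCast, ← Real.rpow_mul hK]
      norm_num
    rw [hK2]
    apply Real.rpow_le_rpow (by positivity) _ (by norm_num)
    rw [← div_eq_mul_inv, le_div_iff₀ hm0]
    have h2 := KK_sq_le hx h0
    -- u² |x0| |x1| |C| ≤ δ
    have h3 : uu x ^ 2 * m ≤ dl x := by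
      have a1 : |x 1 * uu x| ≤ 1 := abs_x1_uu_le x
      have a2 := c_sq_le_dl hq
      have a3 := C_sq_le_dl hq
      have a4 : |x 0 * uu x| * |Real.cos (x 2 * uu x)| ≤ dl x := by
        rw [← sq_abs] at a2 a3
        nlinarith [sq_nonneg (|x 0 * uu x| - |Real.cos (x 2 * uu x)|)]
      have a5 : uu x ^ 2 * m = |x 1 * uu x| * (|x 0 * uu x| * |Real.cos (x 2 * uu x)|) := by
        rw [hm, abs_mul, abs_mul, abs_of_pos hu]; ring
      rw [a5]
      calc _ ≤ 1 * (|x 0 * uu x| * |Real.cos (x 2 * uu x)|) :=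
            mul_le_mul_of_nonneg_right a1 (by positivity)
        _ ≤ _ := by linarith
    have h4 : (KK x ^ 2 * m) * dl x ≤ 1000 * dl x := by
      calc (KK x ^ 2 * m) * dl x = (KK x ^ 2 * dl x) * m := by ring
        _ ≤ (1000 * uu x ^ 2) * m := mul_le_mul_of_nonneg_right h2 hm0.le
        _ = 1000 * (uu x ^ 2 * m) := by ring
        _ ≤ 1000 * dl x := by linarith
    exact le_of_mul_le_mul_right h4 hd

theorem ae_ne (i : Fin 3) : ∀ᵐ x : Fin 3 → ℝ, x i ≠ 0 := by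
  rw [ae_iff]
  have h3 := Measure.pi_hyperplane (fun _ : Fin 3 => (volume : Measure ℝ)) i 0
  simp only [not_not]
  exact h3

theorem memLp_KK : MemLp KK (ENNReal.ofReal (3 / 2)) (volume.restrict cube) := by
  refine ⟨measurable_KK.aestronglyMeasurable, ?_⟩
  rw [eLpNorm_lt_top_iff_lintegral_rpow_enorm_lt_top (by simp) ENNReal.ofReal_ne_top,
    ENNReal.toReal_ofReal (by norm_num)]
  have h : ∫⁻ x in cube, ‖KK x‖ₑ ^ (3 / 2 : ℝ) ≤ ∫⁻ x in cube,
      ENNReal.ofReal (1000 ^ (3 / 4 : ℝ)) * (ga (x 0) * ga (x 1) * gb (x 2 * uu x)) := by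
    apply lintegral_mono_ae
    filter_upwards [ae_restrict_mem isOpen_cube.measurableSet, ae_restrict_of_ae (ae_ne 0),
      ae_restrict_of_ae (ae_ne 1)] with x hx h0 h1
    exact enorm_KK_le hx h0 h1
  refine lt_of_le_of_lt h ?_
  have hm : Measurable fun x : Fin 3 → ℝ => ga (x 0) * ga (x 1) * gb (x 2 * uu x) :=
    ((measurable_ga.comp (measurable_pi_apply 0)).mul (measurable_ga.comp (measurable_pi_apply 1))).mul
      (measurable_gb.comp ((measurable_pi_apply 2).mul measurable_uu))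
  rw [lintegral_const_mul _ hm]
  exact ENNReal.mul_lt_top ENNReal.ofReal_lt_top lintegral_cube_lt

end Pool.Agent.Lib.MP_3d1d78_an
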