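import Pool.Agent.Lib.MP_3d1d78_an.IntP
import Pool.Agent.Lib.MP_3d1d78_an.Dist

/-!
The inner distortion of `ff` lies in `L^p` of the cube for every `p < 2`.
-/

set_option autoImplicit false

open MeasureTheory Set Real

namespace Pool.Agent.Lib.MP_3d1d78_an.P

theorem enorm_KK_le {a : ℝ} (ha : 0 < a) {x : Fin 3 → ℝ} (hx : x ∈ cube) (h0 : x 0 ≠ 0)
    (h1 : x 1 ≠ 0) :
    ‖KK x‖ₑ ^ (2 * a) ≤ ENNReal.ofReal (1000 ^ a) *
      (ga a (x 0) * ga a (x 1) * gb a (x 2 * uu x)) := by
  have hq := qq_pos h0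
  have hu := uu_pos hq
  have hd := dl_pos h0
  have hK := KK_nonneg x
  have hga0 : ga a (x 0) ≠ 0 := by
    rw [ga_eq h0]
    exact (ENNReal.ofReal_pos.2 (Real.rpow_pos_of_pos (abs_pos.2 h0) _)).ne'
  have hga1 : ga a (x 1) ≠ 0 := by
    rw [ga_eq h1]
    exact (ENNReal.ofReal_pos.2 (Real.rpow_pos_of_pos (abs_pos.2 h1) _)).ne'
  rcases eq_or_ne (Real.cos (x 2 * uu x)) 0 with hc | hc
  · have : gb a (x 2 * uu x) = ⊤ := by
      unfold gb
      rw [hc]
      simp [ENNReal.zero_rpow_of_pos ha]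
    rw [this, ENNReal.mul_top (mul_ne_zero hga0 hga1), ENNReal.mul_top]
    · exact le_top
    · exact (ENNReal.ofReal_pos.2 (by positivity)).ne'
  · have hc' := abs_pos.2 hc
    have h0' := abs_pos.2 h0
    have h1' := abs_pos.2 h1
    rw [ga_eq h0, ga_eq h1, gb_eq hc, ← ENNReal.ofReal_mul (by positivity),
      ← ENNReal.ofReal_mul (by positivity), ← ENNReal.ofReal_mul (by positivity),
      Real.enorm_eq_ofReal hK, ENNReal.ofReal_rpow_of_nonneg hK (by positivity)]
    apply ENNReal.ofReal_le_ofReal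
    rw [← Real.mul_rpow (by positivity) (by positivity),
      ← Real.mul_rpow (by positivity) (by positivity)]
    set m := |x 0| * |x 1| * |Real.cos (x 2 * uu x)| with hm
    have hm0 : 0 < m := by positivity
    rw [Real.rpow_neg hm0.le, ← Real.inv_rpow hm0.le,
      ← Real.mul_rpow (by norm_num) (by positivity)]
    have hK2 : KK x ^ (2 * a) = (KK x ^ 2) ^ a := by
      rw [← Real.rpow_natCast, ← Real.rpow_mul hK]
      norm_num
    rw [hK2]
    apply Real.rpow_le_rpow (by positivity) _ ha.le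
    rw [← div_eq_mul_inv, le_div_iff₀ hm0]
    have h2 := KK_sq_le hx h0
    have h3 : uu x ^ 2 * m ≤ dl x := by
      have a1 : |x 1 * uu x| ≤ 1 := abs_x1_uu_le x
      have a2 := c_sq_le_dl hq
      have a3 := C_sq_le_dl hq
      have a4 : |x 0 * uu x| * |Real.cos (x 2 * uu x)| ≤ dl x := by
        rw [← sq_abs] at a2 a3
        nlinarith [sq_nonneg (|x 0 * uu x| - |Real.cos (x 2 * uu x)|)]
      have a5 : uu x ^ 2 * m = |x 1 * uu x| * (|x 0 * uu x| * |Real.cos (x 2 * uu x)|) := by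
        rw [hm, abs_mul, abs_mul, abs_of_pos hu]; ring
      rw [a5]
      calc _ ≤ 1 * (|x 0 * uu x| * |Real.cos (x 2 * uu x)|) :=
            mul_le_mul_of_nonneg_right a1 (by positivity)
        _ ≤ _ := by linarith
    have h4 : (KK x ^ 2 * m) * dl x ≤ 1000 * dl x := by
      calc (KK x ^ 2 * m) * dl x = (KK x ^ 2 * dl x) * m := by ring
        _ ≤ (1000 * uu x ^ 2) * m := mul_le_mul_of_nonneg_right h2 hm0.le
        _ = 1000 * (uu x ^ 2 * m) := by ring
        _ ≤ 1000 * dl x := by linarith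
    exact le_of_mul_le_mul_right h4 hd

theorem memLp_KK {a : ℝ} (ha : 0 < a) (ha1 : a < 1) :
    MemLp KK (ENNReal.ofReal (2 * a)) (volume.restrict cube) := by
  refine ⟨measurable_KK.aestronglyMeasurable, ?_⟩
  rw [eLpNorm_lt_top_iff_lintegral_rpow_enorm_lt_top (by simpa using ha) ENNReal.ofReal_ne_top,
    ENNReal.toReal_ofReal (by positivity)]
  have h : ∫⁻ x in cube, ‖KK x‖ₑ ^ (2 * a) ≤ ∫⁻ x in cube,
      ENNReal.ofReal (1000 ^ a) * (ga a (x 0) * ga a (x 1) * gb a (x 2 * uu x)) := by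
    apply lintegral_mono_ae
    filter_upwards [ae_restrict_mem isOpen_cube.measurableSet, ae_restrict_of_ae (ae_ne 0),
      ae_restrict_of_ae (ae_ne 1)] with x hx h0 h1
    exact enorm_KK_le ha hx h0 h1
  refine lt_of_le_of_lt h ?_
  have hm : Measurable fun x : Fin 3 → ℝ => ga a (x 0) * ga a (x 1) * gb a (x 2 * uu x) :=
    (((measurable_ga a).comp (measurable_pi_apply 0)).mul
      ((measurable_ga a).comp (measurable_pi_apply 1))).mul
      ((measurable_gb a).comp ((measurable_pi_apply 2).mul measurable_uu))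
  rw [lintegral_const_mul _ hm]
  exact ENNReal.mul_lt_top ENNReal.ofReal_lt_top (lintegral_cube_lt ha.le ha1)

/-- The inner distortion is in `L^p` for every `p < 2`. -/
theorem memLp_KK_all {p : ENNReal} (hp : p < 2) : MemLp KK p (volume.restrict cube) := by
  obtain ⟨q, hq1, hq2⟩ := exists_between (max_lt hp (by norm_num : (1 : ENNReal) < 2))
  have hqt : q ≠ ⊤ := (hq2.trans (by norm_num)).ne
  have hqr : ENNReal.ofReal (2 * (q.toReal / 2)) = q := by
    rw [mul_div_cancel₀ _ (by norm_num), ENNReal.ofReal_toReal hqt]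
  have h1 : 1 < q.toReal := by
    have := (ENNReal.toReal_lt_toReal (by simp) hqt).2 ((le_max_right _ _).trans_lt hq1)
    simpa using this
  have h2 : q.toReal < 2 := by
    have := (ENNReal.toReal_lt_toReal hqt (by simp)).2 hq2
    simpa using this
  have h := memLp_KK (a := q.toReal / 2) (by linarith) (by linarith)
  rw [hqr] at h
  exact h.mono_exponent ((le_max_left _ _).trans hq1.le)

end Pool.Agent.Lib.MP_3d1d78_an.P
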