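import Pool.Agent.Lib.MP_3d1d78_an.Weak

/-!
The integral estimates: one-dimensional integrals and Tonelli on the cube.
-/

set_option autoImplicit false

open MeasureTheory Set Real

namespace Pool.Agent.Lib.MP_3d1d78_an

/-- `|t| ^ (-3/4)`. -/
noncomputable def ga (t : ℝ) : ENNReal := (ENNReal.ofReal |t| ^ (3 / 4 : ℝ))⁻¹

/-- `|cos t| ^ (-3/4)`. -/
noncomputable def gb (t : ℝ) : ENNReal := (ENNReal.ofReal |Real.cos t| ^ (3 / 4 : ℝ))⁻¹

theorem ga_eq {t : ℝ} (ht : t ≠ 0) : ga t = ENNReal.ofReal (|t| ^ (-(3 / 4) : ℝ)) := by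
  have h := abs_pos.2 ht
  unfold ga
  rw [ENNReal.ofReal_rpow_of_pos h, ← ENNReal.ofReal_inv_of_pos (Real.rpow_pos_of_pos h _),
    Real.rpow_neg h.le]

theorem gb_eq {t : ℝ} (ht : Real.cos t ≠ 0) :
    gb t = ENNReal.ofReal (|Real.cos t| ^ (-(3 / 4) : ℝ)) := ga_eq ht

theorem measurable_ga : Measurable ga := by unfold ga; fun_prop

theorem measurable_gb : Measurable gb := by unfold gb; fun_prop

theorem intervalIntegrable_abs (R : ℝ) (hR : 0 ≤ R) :
    IntervalIntegrable (fun t : ℝ => |t| ^ (-(3 / 4) : ℝ)) volume (-R) R := by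
  have h1 : IntervalIntegrable (fun t : ℝ => |t| ^ (-(3 / 4) : ℝ)) volume 0 R := by
    refine (intervalIntegral.intervalIntegrable_rpow' (r := (-(3 / 4) : ℝ)) (by norm_num)).congr ?_
    intro t ht
    rw [uIoc_of_le hR] at ht
    simp only [abs_of_pos ht.1]
  have h2 : IntervalIntegrable (fun t : ℝ => |t| ^ (-(3 / 4) : ℝ)) volume (-R) 0 := by
    rw [IntervalIntegrable.iff_comp_neg, neg_neg, neg_zero]
    simpa using h1.symm
  exact h2.trans h1

theorem lintegral_ga_lt (R : ℝ) (hR : 0 ≤ R) : ∫⁻ t in Ioc (-R) R, ga t < ⊤ := by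
  have h := (intervalIntegrable_abs R hR).1
  have h2 := h.hasFiniteIntegral
  have h3 : ∫⁻ t in Ioc (-R) R, ga t =
      ∫⁻ t in Ioc (-R) R, ENNReal.ofReal (|t| ^ (-(3 / 4) : ℝ)) := by
    apply lintegral_congr_ae
    apply ae_restrict_of_ae
    filter_upwards [Measure.ae_ne volume (0 : ℝ)] with t ht
    exact ga_eq ht
  rw [h3]
  refine lt_of_le_of_lt (lintegral_mono fun t => ?_) h2
  exact Real.ofReal_le_enorm _

theorem lintegral_shift (f : ℝ → ENNReal) (c a b : ℝ) :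
    ∫⁻ t in Ioc (a + c) (b + c), f t = ∫⁻ t in Ioc a b, f (t + c) := by
  have h := (measurePreserving_add_right (volume : Measure ℝ) c).setLIntegral_comp_preimage_emb
    (MeasurableEquiv.addRight c).measurableEmbedding f (Ioc (a + c) (b + c))
  rw [← h]
  congr 2
  ext t
  simp

theorem gb_le {t : ℝ} (h0 : 0 ≤ t) (h1 : t ≤ π) :
    gb t ≤ (ENNReal.ofReal (2 / π) ^ (3 / 4 : ℝ))⁻¹ * ga (t - π / 2) := by
  have h2pi : 0 < 2 / π := by positivity
  have h : 2 / π * |t - π / 2| ≤ |Real.cos t| := by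
    rcases le_total t (π / 2) with h | h
    · have h2 := Real.mul_le_sin (x := π / 2 - t) (by linarith) (by linarith)
      rw [Real.sin_pi_div_two_sub] at h2
      rw [abs_sub_comm, abs_of_nonneg (by linarith : 0 ≤ π / 2 - t)]
      exact h2.trans (le_abs_self _)
    · have h2 := Real.mul_le_sin (x := t - π / 2) (by linarith) (by linarith)
      rw [Real.sin_sub_pi_div_two] at h2
      rw [abs_of_nonneg (by linarith : 0 ≤ t - π / 2)]
      exact h2.trans (neg_le_abs _)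
  unfold gb ga
  have hA0 : ENNReal.ofReal (2 / π) ^ (3 / 4 : ℝ) ≠ 0 := by
    rw [ENNReal.ofReal_rpow_of_pos h2pi]
    exact (ENNReal.ofReal_pos.2 (Real.rpow_pos_of_pos h2pi _)).ne'
  have hA1 : ENNReal.ofReal (2 / π) ^ (3 / 4 : ℝ) ≠ ⊤ :=
    (ENNReal.rpow_lt_top_of_nonneg (by norm_num) ENNReal.ofReal_ne_top).ne
  rw [← ENNReal.mul_inv (Or.inl hA0) (Or.inl hA1), ENNReal.inv_le_inv,
    ← ENNReal.mul_rpow_of_nonneg _ _ (by norm_num), ← ENNReal.ofReal_mul h2pi.le]
  exact ENNReal.rpow_le_rpow (ENNReal.ofReal_le_ofReal h) (by norm_num)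

theorem lintegral_gb_period_lt : ∫⁻ t in Ioc 0 π, gb t < ⊤ := by
  have h : ∫⁻ t in Ioc 0 π, gb t ≤
      ∫⁻ t in Ioc 0 π, (ENNReal.ofReal (2 / π) ^ (3 / 4 : ℝ))⁻¹ * ga (t + -(π / 2)) := by
    refine setLIntegral_mono' measurableSet_Ioc fun t ht => ?_
    have := gb_le ht.1.le ht.2
    rwa [sub_eq_add_neg] at this
  refine lt_of_le_of_lt h ?_
  have hm : Measurable fun t => ga (t + -(π / 2)) := measurable_ga.comp (measurable_id.add_const _)
  rw [lintegral_const_mul _ hm]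
  have h2pi : 0 < 2 / π := by positivity
  have hA0 : ENNReal.ofReal (2 / π) ^ (3 / 4 : ℝ) ≠ 0 := by
    rw [ENNReal.ofReal_rpow_of_pos h2pi]
    exact (ENNReal.ofReal_pos.2 (Real.rpow_pos_of_pos h2pi _)).ne'
  refine ENNReal.mul_lt_top (ENNReal.inv_lt_top.2 (pos_iff_ne_zero.2 hA0)) ?_
  rw [← lintegral_shift ga (-(π / 2)) 0 π]
  have e1 : (0 : ℝ) + -(π / 2) = -(π / 2) := by ring
  have e2 : π + -(π / 2) = π / 2 := by ring
  rw [e1, e2]
  exact lintegral_ga_lt _ (by positivity)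

theorem gb_add_nat (t : ℝ) (n : ℕ) : gb (t + n * π) = gb t := by
  unfold gb
  rw [Real.cos_add_nat_mul_pi, abs_mul, abs_pow, abs_neg, abs_one, one_pow, one_mul]

theorem lintegral_gb_nat (n : ℕ) :
    ∫⁻ t in Ioc (-(n * π)) (n * π), gb t ≤ 2 * n * ∫⁻ t in Ioc 0 π, gb t := by
  induction n with
  | zero => simp
  | succ n ih =>
    have hsub : Ioc (-(((n + 1 : ℕ) : ℝ) * π)) (((n + 1 : ℕ) : ℝ) * π) ⊆
        (Ioc (-(((n + 1 : ℕ) : ℝ) * π)) (-(n * π)) ∪ Ioc (-(n * π)) (n * π)) ∪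
          Ioc (n * π) (((n + 1 : ℕ) : ℝ) * π) := by
      intro t ht
      rcases le_or_gt t (-(n * π)) with h | h
      · exact Or.inl (Or.inl ⟨ht.1, h⟩)
      · rcases le_or_gt t (n * π) with h' | h'
        · exact Or.inl (Or.inr ⟨h, h'⟩)
        · exact Or.inr ⟨h', ht.2⟩
    have h1 : ∫⁻ t in Ioc ((n : ℝ) * π) (((n + 1 : ℕ) : ℝ) * π), gb t = ∫⁻ t in Ioc 0 π, gb t := by
      have e : ((n + 1 : ℕ) : ℝ) * π = π + n * π := by push_cast; ring
      have e0 : (n : ℝ) * π = 0 + n * π := by ring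
      rw [e, show Ioc ((n : ℝ) * π) (π + n * π) = Ioc (0 + n * π) (π + n * π) by rw [zero_add],
        lintegral_shift]
      simp only [gb_add_nat]
    have h2 : ∫⁻ t in Ioc (-(((n + 1 : ℕ) : ℝ) * π)) (-(n * π)), gb t =
        ∫⁻ t in Ioc 0 π, gb t := by
      have h3 := lintegral_shift gb (((n + 1 : ℕ) : ℝ) * π) (-(((n + 1 : ℕ) : ℝ) * π)) (-(n * π))
      simp only [gb_add_nat] at h3
      rw [← h3]
      have e1 : -(((n + 1 : ℕ) : ℝ) * π) + ((n + 1 : ℕ) : ℝ) * π = 0 := by ring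
      have e2 : -((n : ℝ) * π) + ((n + 1 : ℕ) : ℝ) * π = π := by push_cast; ring
      rw [e1, e2]
    calc _ ≤ _ := lintegral_mono_set hsub
      _ ≤ _ := lintegral_union_le _ _ _
      _ ≤ ((∫⁻ t in Ioc (-(((n + 1 : ℕ) : ℝ) * π)) (-(n * π)), gb t) +
            (∫⁻ t in Ioc (-(n * π)) (n * π), gb t)) +
          (∫⁻ t in Ioc ((n : ℝ) * π) (((n + 1 : ℕ) : ℝ) * π), gb t) :=
        add_le_add_left (lintegral_union_le _ _ _) _
      _ ≤ ((∫⁻ t in Ioc 0 π, gb t) + 2 * n * (∫⁻ t in Ioc 0 π, gb t)) +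
          (∫⁻ t in Ioc 0 π, gb t) := by
        rw [h1, h2]; gcongr
      _ = _ := by push_cast; ring

theorem lintegral_gb_scale {u : ℝ} (hu : 1 / 2 ≤ u) :
    ∫⁻ z in Ioo (-1 : ℝ) 1, gb (z * u) ≤ 10 * ∫⁻ t in Ioc 0 π, gb t := by
  have hu0 : 0 < u := by linarith
  have hpi := Real.pi_gt_three
  obtain ⟨n, hn1, hn2⟩ : ∃ n : ℕ, u ≤ n * π ∧ (n : ℝ) ≤ 5 * u := by
    refine ⟨⌈u / π⌉₊, ?_, ?_⟩
    · have := Nat.le_ceil (u / π)
      rw [div_le_iff₀ Real.pi_pos] at this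
      exact this
    · have h := Nat.ceil_lt_add_one (show 0 ≤ u / π by positivity)
      have h2 : u / π ≤ u := by
        rw [div_le_iff₀ Real.pi_pos]
        nlinarith
      nlinarith
  have h1 : ∫⁻ z in Ioo (-1 : ℝ) 1, gb (z * u) =
      ENNReal.ofReal |u⁻¹| * ∫⁻ t in Ioo (-u) u, gb t := by
    have h2 : ∫⁻ z, (Ioo (-u) u).indicator gb (z * u) = ENNReal.ofReal |u⁻¹| *
        ∫⁻ t, (Ioo (-u) u).indicator gb t := by
      have h3 := lintegral_map (μ := volume) (g := fun z : ℝ => z * u)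
        (measurable_gb.indicator (measurableSet_Ioo (a := -u) (b := u))) (measurable_mul_const u)
      rw [← h3, Real.map_volume_mul_right hu0.ne', lintegral_smul_measure]
      rfl
    rw [← lintegral_indicator measurableSet_Ioo, ← lintegral_indicator measurableSet_Ioo, ← h2]
    congr 1
    ext z
    by_cases hz : z ∈ Ioo (-1 : ℝ) 1
    · rw [indicator_of_mem hz, indicator_of_mem]
      constructor <;> nlinarith [hz.1, hz.2]
    · rw [indicator_of_notMem hz, indicator_of_notMem]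
      intro h
      apply hz
      have h4 := h.1
      have h5 := h.2
      constructor
      · by_contra hcon
        push Not at hcon
        nlinarith
      · by_contra hcon
        push Not at hcon
        nlinarith
  rw [h1]
  have hsub : Ioo (-u) u ⊆ Ioc (-(n * π)) (n * π) := fun t ht => ⟨by linarith [ht.1], by linarith [ht.2]⟩
  calc _ ≤ ENNReal.ofReal |u⁻¹| * ∫⁻ t in Ioc (-(n * π)) (n * π), gb t := by
        gcongr
    _ ≤ ENNReal.ofReal |u⁻¹| * (2 * n * ∫⁻ t in Ioc 0 π, gb t) := by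
        gcongr
        exact lintegral_gb_nat n
    _ = (ENNReal.ofReal |u⁻¹| * (2 * n)) * ∫⁻ t in Ioc 0 π, gb t := by ring
    _ ≤ 10 * ∫⁻ t in Ioc 0 π, gb t := by
        gcongr
        have e : (2 * (n : ENNReal)) = ENNReal.ofReal (2 * n) := by
          rw [ENNReal.ofReal_mul (by norm_num), ENNReal.ofReal_natCast]
          simp
        rw [e, ← ENNReal.ofReal_mul (abs_nonneg _)]
        have e10 : (10 : ENNReal) = ENNReal.ofReal 10 := by simp
        rw [e10]
        apply ENNReal.ofReal_le_ofReal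
        rw [abs_of_pos (inv_pos.2 hu0), inv_mul_le_iff₀ hu0]
        linarith

/-! ### Tonelli -/

/-- The inverse distance to the origin in the plane. -/
noncomputable def vv (w : Fin 2 → ℝ) : ℝ := (Real.sqrt (w 0 ^ 2 + w 1 ^ 2))⁻¹

noncomputable def aa (t : ℝ) : ENNReal := (Ioo (-1 : ℝ) 1).indicator ga t

theorem measurable_aa : Measurable aa := measurable_ga.indicator measurableSet_Ioo

/-- The majorant on the product space. -/
noncomputable def H0 (p : ℝ × (Fin 2 → ℝ)) : ENNReal :=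
  aa (p.2 0) * aa (p.2 1) * (Prod.fst ⁻¹' Ioo (-1 : ℝ) 1).indicator (fun p => gb (p.1 * vv p.2)) p

theorem measurable_H0 : Measurable H0 := by
  have h1 : Measurable fun p : ℝ × (Fin 2 → ℝ) => aa (p.2 0) :=
    measurable_aa.comp ((measurable_pi_apply 0).comp measurable_snd)
  have h2 : Measurable fun p : ℝ × (Fin 2 → ℝ) => aa (p.2 1) :=
    measurable_aa.comp ((measurable_pi_apply 1).comp measurable_snd)
  have hv : Measurable vv := by unfold vv; fun_prop
  have h3 : Measurable fun p : ℝ × (Fin 2 → ℝ) => gb (p.1 * vv p.2) :=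
    measurable_gb.comp (measurable_fst.mul (hv.comp measurable_snd))
  exact (h1.mul h2).mul (h3.indicator (measurable_fst measurableSet_Ioo))

theorem lintegral_aa_lt : ∫⁻ t, aa t < ⊤ := by
  unfold aa
  rw [lintegral_indicator measurableSet_Ioo]
  refine lt_of_le_of_lt (lintegral_mono_set Ioo_subset_Ioc_self) (lintegral_ga_lt 1 (by norm_num))

theorem inner_le (w : Fin 2 → ℝ) (hw : w 0 ≠ 0) :
    ∫⁻ z, H0 (z, w) ≤ (aa (w 0) * aa (w 1)) * (10 * ∫⁻ t in Ioc 0 π, gb t) := by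
  have hv : Measurable fun z : ℝ => gb (z * vv w) := measurable_gb.comp (measurable_mul_const _)
  have h1 : ∫⁻ z, H0 (z, w) = (aa (w 0) * aa (w 1)) * ∫⁻ z in Ioo (-1 : ℝ) 1, gb (z * vv w) := by
    rw [← lintegral_indicator measurableSet_Ioo, ← lintegral_const_mul _
      (hv.indicator measurableSet_Ioo)]
    rfl
  rw [h1]
  by_cases h0 : w 0 ∈ Ioo (-1 : ℝ) 1
  · by_cases h0' : w 1 ∈ Ioo (-1 : ℝ) 1
    · have hpos : 0 < w 0 ^ 2 + w 1 ^ 2 := by positivity
      gcongr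
      apply lintegral_gb_scale
      unfold vv
      rw [one_div, inv_le_inv₀ (by norm_num) (Real.sqrt_pos.2 hpos), Real.sqrt_le_left (by norm_num)]
      nlinarith [h0.1, h0.2, h0'.1, h0'.2]
    · have : aa (w 1) = 0 := indicator_of_notMem h0' _
      rw [this]; simp
  · have : aa (w 0) = 0 := indicator_of_notMem h0 _
    rw [this]; simp

theorem lintegral_aa2_lt : ∫⁻ w : Fin 2 → ℝ, aa (w 0) * aa (w 1) < ⊤ := by
  have h := (volume_preserving_finTwoArrow ℝ).lintegral_comp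
    (f := fun p : ℝ × ℝ => aa p.1 * aa p.2)
    ((measurable_aa.comp measurable_fst).mul (measurable_aa.comp measurable_snd))
  have h2 : ∫⁻ w : Fin 2 → ℝ, aa (w 0) * aa (w 1) = ∫⁻ p : ℝ × ℝ, aa p.1 * aa p.2 := h
  rw [h2, Measure.volume_eq_prod, lintegral_prod_mul measurable_aa.aemeasurable
    measurable_aa.aemeasurable]
  exact ENNReal.mul_lt_top lintegral_aa_lt lintegral_aa_lt

theorem lintegral_H0_lt : ∫⁻ p, H0 p < ⊤ := by
  rw [Measure.volume_eq_prod, lintegral_prod_symm _ measurable_H0.aemeasurable]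
  have h1 : ∫⁻ w : Fin 2 → ℝ, ∫⁻ z, H0 (z, w) ≤
      ∫⁻ w : Fin 2 → ℝ, (aa (w 0) * aa (w 1)) * (10 * ∫⁻ t in Ioc 0 π, gb t) := by
    apply lintegral_mono_ae
    have h2 : ∀ᵐ w : Fin 2 → ℝ, w 0 ≠ 0 := by
      rw [ae_iff]
      have h3 := Measure.pi_hyperplane (fun _ : Fin 2 => (volume : Measure ℝ)) 0 0
      simp only [not_not]
      exact h3
    filter_upwards [h2] with w hw
    exact inner_le w hw
  refine lt_of_le_of_lt h1 ?_
  have hm : Measurable fun w : Fin 2 → ℝ => aa (w 0) * aa (w 1) :=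
    (measurable_aa.comp (measurable_pi_apply 0)).mul (measurable_aa.comp (measurable_pi_apply 1))
  rw [lintegral_mul_const _ hm]
  refine ENNReal.mul_lt_top lintegral_aa2_lt (ENNReal.mul_lt_top (by simp) lintegral_gb_period_lt)

/-- The majorant on the cube is integrable. -/
theorem lintegral_cube_lt :
    ∫⁻ x in cube, ga (x 0) * ga (x 1) * gb (x 2 * uu x) < ⊤ := by
  have h := (volume_preserving_piFinSuccAbove (fun _ : Fin 3 => ℝ) 2).lintegral_comp measurable_H0
  rw [← lintegral_indicator isOpen_cube.measurableSet]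
  refine lt_of_le_of_lt (lintegral_mono fun x => ?_) (h ▸ lintegral_H0_lt)
  have e0 : (MeasurableEquiv.piFinSuccAbove (fun _ : Fin 3 => ℝ) 2 x).1 = x 2 := rfl
  have e1 : (MeasurableEquiv.piFinSuccAbove (fun _ : Fin 3 => ℝ) 2 x).2 0 = x 0 := rfl
  have e2 : (MeasurableEquiv.piFinSuccAbove (fun _ : Fin 3 => ℝ) 2 x).2 1 = x 1 := rfl
  by_cases hx : x ∈ cube
  · rw [indicator_of_mem hx]
    unfold H0
    rw [e1, e2, indicator_of_mem (show (MeasurableEquiv.piFinSuccAbove (fun _ : Fin 3 => ℝ) 2 x) ∈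
      Prod.fst ⁻¹' Ioo (-1 : ℝ) 1 from hx 2 (mem_univ _))]
    unfold aa
    rw [indicator_of_mem (hx 0 (mem_univ _)), indicator_of_mem (hx 1 (mem_univ _))]
    exact le_rfl
  · rw [indicator_of_notMem hx]
    exact zero_le

end Pool.Agent.Lib.MP_3d1d78_an
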