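import Pool.Agent.Lib.MP_3d1d78_an.Int

/-!
The integral estimates of `Int.lean` with a general exponent `a < 1` in place of `3 / 4`.
-/

set_option autoImplicit false

open MeasureTheory Set Real

namespace Pool.Agent.Lib.MP_3d1d78_an.P

/-- `|t| ^ (-a)`. -/
noncomputable def ga (a t : ℝ) : ENNReal := (ENNReal.ofReal |t| ^ a)⁻¹

/-- `|cos t| ^ (-a)`. -/
noncomputable def gb (a t : ℝ) : ENNReal := (ENNReal.ofReal |Real.cos t| ^ a)⁻¹

theorem ga_eq {a t : ℝ} (ht : t ≠ 0) : ga a t = ENNReal.ofReal (|t| ^ (-a)) := by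
  have h := abs_pos.2 ht
  unfold ga
  rw [ENNReal.ofReal_rpow_of_pos h, ← ENNReal.ofReal_inv_of_pos (Real.rpow_pos_of_pos h _),
    Real.rpow_neg h.le]

theorem gb_eq {a t : ℝ} (ht : Real.cos t ≠ 0) :
    gb a t = ENNReal.ofReal (|Real.cos t| ^ (-a)) := ga_eq ht

theorem measurable_ga (a : ℝ) : Measurable (ga a) := by unfold ga; fun_prop

theorem measurable_gb (a : ℝ) : Measurable (gb a) := by unfold gb; fun_prop

theorem intervalIntegrable_abs {a : ℝ} (ha : a < 1) (R : ℝ) (hR : 0 ≤ R) :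
    IntervalIntegrable (fun t : ℝ => |t| ^ (-a)) volume (-R) R := by
  have h1 : IntervalIntegrable (fun t : ℝ => |t| ^ (-a)) volume 0 R := by
    refine (intervalIntegral.intervalIntegrable_rpow' (r := -a) (by linarith)).congr ?_
    intro t ht
    rw [uIoc_of_le hR] at ht
    simp only [abs_of_pos ht.1]
  have h2 : IntervalIntegrable (fun t : ℝ => |t| ^ (-a)) volume (-R) 0 := by
    rw [IntervalIntegrable.iff_comp_neg, neg_neg, neg_zero]
    simpa using h1.symm
  exact h2.trans h1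

theorem lintegral_ga_lt {a : ℝ} (ha : a < 1) (R : ℝ) (hR : 0 ≤ R) :
    ∫⁻ t in Ioc (-R) R, ga a t < ⊤ := by
  have h := (intervalIntegrable_abs ha R hR).1
  have h2 := h.hasFiniteIntegral
  have h3 : ∫⁻ t in Ioc (-R) R, ga a t =
      ∫⁻ t in Ioc (-R) R, ENNReal.ofReal (|t| ^ (-a)) := by
    apply lintegral_congr_ae
    apply ae_restrict_of_ae
    filter_upwards [Measure.ae_ne volume (0 : ℝ)] with t ht
    exact ga_eq ht
  rw [h3]
  refine lt_of_le_of_lt (lintegral_mono fun t => ?_) h2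
  exact Real.ofReal_le_enorm _

theorem gb_le {a : ℝ} (ha : 0 ≤ a) {t : ℝ} (h0 : 0 ≤ t) (h1 : t ≤ π) :
    gb a t ≤ (ENNReal.ofReal (2 / π) ^ a)⁻¹ * ga a (t - π / 2) := by
  have h2pi : 0 < 2 / π := by positivity
  have h : 2 / π * |t - π / 2| ≤ |Real.cos t| := by
    rcases le_total t (π / 2) with h | h
    · have h2 := Real.mul_le_sin (x := π / 2 - t) (by linarith) (by linarith)
      rw [Real.sin_pi_div_two_sub] at h2
      rw [abs_sub_comm, abs_of_nonneg (by linarith : 0 ≤ π / 2 - t)]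
      exact h2.trans (le_abs_self _)
    · have h2 := Real.mul_le_sin (x := t - π / 2) (by linarith) (by linarith)
      rw [Real.sin_sub_pi_div_two] at h2
      rw [abs_of_nonneg (by linarith : 0 ≤ t - π / 2)]
      exact h2.trans (neg_le_abs _)
  unfold gb ga
  have hA0 : ENNReal.ofReal (2 / π) ^ a ≠ 0 := by
    rw [ENNReal.ofReal_rpow_of_pos h2pi]
    exact (ENNReal.ofReal_pos.2 (Real.rpow_pos_of_pos h2pi _)).ne'
  have hA1 : ENNReal.ofReal (2 / π) ^ a ≠ ⊤ :=
    (ENNReal.rpow_lt_top_of_nonneg ha ENNReal.ofReal_ne_top).ne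
  rw [← ENNReal.mul_inv (Or.inl hA0) (Or.inl hA1), ENNReal.inv_le_inv,
    ← ENNReal.mul_rpow_of_nonneg _ _ ha, ← ENNReal.ofReal_mul h2pi.le]
  exact ENNReal.rpow_le_rpow (ENNReal.ofReal_le_ofReal h) ha

theorem lintegral_gb_period_lt {a : ℝ} (ha : 0 ≤ a) (ha1 : a < 1) :
    ∫⁻ t in Ioc 0 π, gb a t < ⊤ := by
  have h : ∫⁻ t in Ioc 0 π, gb a t ≤
      ∫⁻ t in Ioc 0 π, (ENNReal.ofReal (2 / π) ^ a)⁻¹ * ga a (t + -(π / 2)) := by
    refine setLIntegral_mono' measurableSet_Ioc fun t ht => ?_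
    have := gb_le ha ht.1.le ht.2
    rwa [sub_eq_add_neg] at this
  refine lt_of_le_of_lt h ?_
  have hm : Measurable fun t => ga a (t + -(π / 2)) :=
    (measurable_ga a).comp (measurable_id.add_const _)
  rw [lintegral_const_mul _ hm]
  have h2pi : 0 < 2 / π := by positivity
  have hA0 : ENNReal.ofReal (2 / π) ^ a ≠ 0 := by
    rw [ENNReal.ofReal_rpow_of_pos h2pi]
    exact (ENNReal.ofReal_pos.2 (Real.rpow_pos_of_pos h2pi _)).ne'
  refine ENNReal.mul_lt_top (ENNReal.inv_lt_top.2 (pos_iff_ne_zero.2 hA0)) ?_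
  rw [← lintegral_shift (ga a) (-(π / 2)) 0 π]
  have e1 : (0 : ℝ) + -(π / 2) = -(π / 2) := by ring
  have e2 : π + -(π / 2) = π / 2 := by ring
  rw [e1, e2]
  exact lintegral_ga_lt ha1 _ (by positivity)

theorem gb_add_nat (a t : ℝ) (n : ℕ) : gb a (t + n * π) = gb a t := by
  unfold gb
  rw [Real.cos_add_nat_mul_pi, abs_mul, abs_pow, abs_neg, abs_one, one_pow, one_mul]

theorem lintegral_gb_nat (a : ℝ) (n : ℕ) :
    ∫⁻ t in Ioc (-(n * π)) (n * π), gb a t ≤ 2 * n * ∫⁻ t in Ioc 0 π, gb a t := by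
  induction n with
  | zero => simp
  | succ n ih =>
    have hsub : Ioc (-(((n + 1 : ℕ) : ℝ) * π)) (((n + 1 : ℕ) : ℝ) * π) ⊆
        (Ioc (-(((n + 1 : ℕ) : ℝ) * π)) (-(n * π)) ∪ Ioc (-(n * π)) (n * π)) ∪
          Ioc (n * π) (((n + 1 : ℕ) : ℝ) * π) := by
      intro t ht
      rcases le_or_gt t (-(n * π)) with h | h
      · exact Or.inl (Or.inl ⟨ht.1, h⟩)
      · rcases le_or_gt t (n * π) with h' | h'
        · exact Or.inl (Or.inr ⟨h, h'⟩)
        · exact Or.inr ⟨h', ht.2⟩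
    have h1 : ∫⁻ t in Ioc ((n : ℝ) * π) (((n + 1 : ℕ) : ℝ) * π), gb a t =
        ∫⁻ t in Ioc 0 π, gb a t := by
      have e : ((n + 1 : ℕ) : ℝ) * π = π + n * π := by push_cast; ring
      rw [e, show Ioc ((n : ℝ) * π) (π + n * π) = Ioc (0 + n * π) (π + n * π) by rw [zero_add],
        lintegral_shift]
      simp only [gb_add_nat]
    have h2 : ∫⁻ t in Ioc (-(((n + 1 : ℕ) : ℝ) * π)) (-(n * π)), gb a t =
        ∫⁻ t in Ioc 0 π, gb a t := by
      have h3 := lintegral_shift (gb a) (((n + 1 : ℕ) : ℝ) * π) (-(((n + 1 : ℕ) : ℝ) * π))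
        (-(n * π))
      simp only [gb_add_nat] at h3
      rw [← h3]
      have e1 : -(((n + 1 : ℕ) : ℝ) * π) + ((n + 1 : ℕ) : ℝ) * π = 0 := by ring
      have e2 : -((n : ℝ) * π) + ((n + 1 : ℕ) : ℝ) * π = π := by push_cast; ring
      rw [e1, e2]
    calc _ ≤ _ := lintegral_mono_set hsub
      _ ≤ _ := lintegral_union_le _ _ _
      _ ≤ ((∫⁻ t in Ioc (-(((n + 1 : ℕ) : ℝ) * π)) (-(n * π)), gb a t) +
            (∫⁻ t in Ioc (-(n * π)) (n * π), gb a t)) +
          (∫⁻ t in Ioc (n * π) (((n + 1 : ℕ) : ℝ) * π), gb a t) :=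
        add_le_add_left (lintegral_union_le _ _ _) _
      _ ≤ ((∫⁻ t in Ioc 0 π, gb a t) + 2 * n * (∫⁻ t in Ioc 0 π, gb a t)) +
          (∫⁻ t in Ioc 0 π, gb a t) := by
        rw [h1, h2]; gcongr
      _ = _ := by push_cast; ring

theorem lintegral_gb_scale {a : ℝ} {u : ℝ} (hu : 1 / 2 ≤ u) :
    ∫⁻ z in Ioo (-1 : ℝ) 1, gb a (z * u) ≤ 10 * ∫⁻ t in Ioc 0 π, gb a t := by
  have hu0 : 0 < u := by linarith
  have hpi := Real.pi_gt_three
  obtain ⟨n, hn1, hn2⟩ : ∃ n : ℕ, u ≤ n * π ∧ (n : ℝ) ≤ 5 * u := by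
    refine ⟨⌈u / π⌉₊, ?_, ?_⟩
    · have := Nat.le_ceil (u / π)
      rw [div_le_iff₀ Real.pi_pos] at this
      exact this
    · have h := Nat.ceil_lt_add_one (show 0 ≤ u / π by positivity)
      have h2 : u / π ≤ u := by
        rw [div_le_iff₀ Real.pi_pos]
        nlinarith
      nlinarith
  have h1 : ∫⁻ z in Ioo (-1 : ℝ) 1, gb a (z * u) =
      ENNReal.ofReal |u⁻¹| * ∫⁻ t in Ioo (-u) u, gb a t := by
    have h2 : ∫⁻ z, (Ioo (-u) u).indicator (gb a) (z * u) = ENNReal.ofReal |u⁻¹| *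
        ∫⁻ t, (Ioo (-u) u).indicator (gb a) t := by
      have h3 := lintegral_map (μ := volume) (g := fun z : ℝ => z * u)
        ((measurable_gb a).indicator (measurableSet_Ioo (a := -u) (b := u))) (measurable_mul_const u)
      rw [← h3, Real.map_volume_mul_right hu0.ne', lintegral_smul_measure]
      rfl
    rw [← lintegral_indicator measurableSet_Ioo, ← lintegral_indicator measurableSet_Ioo, ← h2]
    congr 1
    ext z
    by_cases hz : z ∈ Ioo (-1 : ℝ) 1
    · rw [indicator_of_mem hz, indicator_of_mem]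
      constructor <;> nlinarith [hz.1, hz.2]
    · rw [indicator_of_notMem hz, indicator_of_notMem]
      intro h
      apply hz
      have h4 := h.1
      have h5 := h.2
      constructor
      · by_contra hcon
        push Not at hcon
        nlinarith
      · by_contra hcon
        push Not at hcon
        nlinarith
  rw [h1]
  have hsub : Ioo (-u) u ⊆ Ioc (-(n * π)) (n * π) := fun t ht => ⟨by linarith [ht.1], by linarith [ht.2]⟩
  calc _ ≤ ENNReal.ofReal |u⁻¹| * ∫⁻ t in Ioc (-(n * π)) (n * π), gb a t := by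
        gcongr
    _ ≤ ENNReal.ofReal |u⁻¹| * (2 * n * ∫⁻ t in Ioc 0 π, gb a t) := by
        gcongr
        exact lintegral_gb_nat a n
    _ = (ENNReal.ofReal |u⁻¹| * (2 * n)) * ∫⁻ t in Ioc 0 π, gb a t := by ring
    _ ≤ 10 * ∫⁻ t in Ioc 0 π, gb a t := by
        gcongr
        have e : (2 * (n : ENNReal)) = ENNReal.ofReal (2 * n) := by
          rw [ENNReal.ofReal_mul (by norm_num), ENNReal.ofReal_natCast]
          simp
        rw [e, ← ENNReal.ofReal_mul (abs_nonneg _)]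
        have e10 : (10 : ENNReal) = ENNReal.ofReal 10 := by simp
        rw [e10]
        apply ENNReal.ofReal_le_ofReal
        rw [abs_of_pos (inv_pos.2 hu0), inv_mul_le_iff₀ hu0]
        linarith

/-! ### Tonelli -/

noncomputable def aa (a t : ℝ) : ENNReal := (Ioo (-1 : ℝ) 1).indicator (ga a) t

theorem measurable_aa (a : ℝ) : Measurable (aa a) := (measurable_ga a).indicator measurableSet_Ioo

/-- The majorant on the product space. -/
noncomputable def H0 (a : ℝ) (p : ℝ × (Fin 2 → ℝ)) : ENNReal :=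
  aa a (p.2 0) * aa a (p.2 1) *
    (Prod.fst ⁻¹' Ioo (-1 : ℝ) 1).indicator (fun p => gb a (p.1 * vv p.2)) p

theorem measurable_H0 (a : ℝ) : Measurable (H0 a) := by
  have h1 : Measurable fun p : ℝ × (Fin 2 → ℝ) => aa a (p.2 0) :=
    (measurable_aa a).comp ((measurable_pi_apply 0).comp measurable_snd)
  have h2 : Measurable fun p : ℝ × (Fin 2 → ℝ) => aa a (p.2 1) :=
    (measurable_aa a).comp ((measurable_pi_apply 1).comp measurable_snd)
  have hv : Measurable vv := by unfold vv; fun_prop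
  have h3 : Measurable fun p : ℝ × (Fin 2 → ℝ) => gb a (p.1 * vv p.2) :=
    (measurable_gb a).comp (measurable_fst.mul (hv.comp measurable_snd))
  exact (h1.mul h2).mul (h3.indicator (measurable_fst measurableSet_Ioo))

theorem lintegral_aa_lt {a : ℝ} (ha1 : a < 1) : ∫⁻ t, aa a t < ⊤ := by
  unfold aa
  rw [lintegral_indicator measurableSet_Ioo]
  refine lt_of_le_of_lt (lintegral_mono_set Ioo_subset_Ioc_self) (lintegral_ga_lt ha1 1 (by norm_num))

theorem inner_le {a : ℝ} (w : Fin 2 → ℝ) (hw : w 0 ≠ 0) :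
    ∫⁻ z, H0 a (z, w) ≤ (aa a (w 0) * aa a (w 1)) * (10 * ∫⁻ t in Ioc 0 π, gb a t) := by
  have hv : Measurable fun z : ℝ => gb a (z * vv w) := (measurable_gb a).comp (measurable_mul_const _)
  have h1 : ∫⁻ z, H0 a (z, w) =
      (aa a (w 0) * aa a (w 1)) * ∫⁻ z in Ioo (-1 : ℝ) 1, gb a (z * vv w) := by
    rw [← lintegral_indicator measurableSet_Ioo, ← lintegral_const_mul _
      (hv.indicator measurableSet_Ioo)]
    rfl
  rw [h1]
  by_cases h0 : w 0 ∈ Ioo (-1 : ℝ) 1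
  · by_cases h0' : w 1 ∈ Ioo (-1 : ℝ) 1
    · have hpos : 0 < w 0 ^ 2 + w 1 ^ 2 := by positivity
      gcongr
      apply lintegral_gb_scale
      unfold vv
      rw [one_div, inv_le_inv₀ (by norm_num) (Real.sqrt_pos.2 hpos), Real.sqrt_le_left (by norm_num)]
      nlinarith [h0.1, h0.2, h0'.1, h0'.2]
    · have : aa a (w 1) = 0 := indicator_of_notMem h0' _
      rw [this]; simp
  · have : aa a (w 0) = 0 := indicator_of_notMem h0 _
    rw [this]; simp

theorem lintegral_aa2_lt {a : ℝ} (ha1 : a < 1) :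
    ∫⁻ w : Fin 2 → ℝ, aa a (w 0) * aa a (w 1) < ⊤ := by
  have h := (volume_preserving_finTwoArrow ℝ).lintegral_comp
    (f := fun p : ℝ × ℝ => aa a p.1 * aa a p.2)
    (((measurable_aa a).comp measurable_fst).mul ((measurable_aa a).comp measurable_snd))
  have h2 : ∫⁻ w : Fin 2 → ℝ, aa a (w 0) * aa a (w 1) = ∫⁻ p : ℝ × ℝ, aa a p.1 * aa a p.2 := h
  rw [h2, Measure.volume_eq_prod, lintegral_prod_mul (measurable_aa a).aemeasurable
    (measurable_aa a).aemeasurable]
  exact ENNReal.mul_lt_top (lintegral_aa_lt ha1) (lintegral_aa_lt ha1)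

theorem lintegral_H0_lt {a : ℝ} (ha : 0 ≤ a) (ha1 : a < 1) : ∫⁻ p, H0 a p < ⊤ := by
  rw [Measure.volume_eq_prod, lintegral_prod_symm _ (measurable_H0 a).aemeasurable]
  have h1 : ∫⁻ w : Fin 2 → ℝ, ∫⁻ z, H0 a (z, w) ≤
      ∫⁻ w : Fin 2 → ℝ, (aa a (w 0) * aa a (w 1)) * (10 * ∫⁻ t in Ioc 0 π, gb a t) := by
    apply lintegral_mono_ae
    have h2 : ∀ᵐ w : Fin 2 → ℝ, w 0 ≠ 0 := by
      rw [ae_iff]
      have h3 := Measure.pi_hyperplane (fun _ : Fin 2 => (volume : Measure ℝ)) 0 0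
      simp only [not_not]
      exact h3
    filter_upwards [h2] with w hw
    exact inner_le w hw
  refine lt_of_le_of_lt h1 ?_
  have hm : Measurable fun w : Fin 2 → ℝ => aa a (w 0) * aa a (w 1) :=
    ((measurable_aa a).comp (measurable_pi_apply 0)).mul
      ((measurable_aa a).comp (measurable_pi_apply 1))
  rw [lintegral_mul_const _ hm]
  refine ENNReal.mul_lt_top (lintegral_aa2_lt ha1)
    (ENNReal.mul_lt_top (by simp) (lintegral_gb_period_lt ha ha1))

/-- The majorant on the cube is integrable. -/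
theorem lintegral_cube_lt {a : ℝ} (ha : 0 ≤ a) (ha1 : a < 1) :
    ∫⁻ x in cube, ga a (x 0) * ga a (x 1) * gb a (x 2 * uu x) < ⊤ := by
  have h := (volume_preserving_piFinSuccAbove (fun _ : Fin 3 => ℝ) 2).lintegral_comp
    (measurable_H0 a)
  rw [← lintegral_indicator isOpen_cube.measurableSet]
  refine lt_of_le_of_lt (lintegral_mono fun x => ?_) (h ▸ lintegral_H0_lt ha ha1)
  have e0 : (MeasurableEquiv.piFinSuccAbove (fun _ : Fin 3 => ℝ) 2 x).1 = x 2 := rfl
  have e1 : (MeasurableEquiv.piFinSuccAbove (fun _ : Fin 3 => ℝ) 2 x).2 0 = x 0 := rfl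
  have e2 : (MeasurableEquiv.piFinSuccAbove (fun _ : Fin 3 => ℝ) 2 x).2 1 = x 1 := rfl
  by_cases hx : x ∈ cube
  · rw [indicator_of_mem hx]
    unfold H0
    rw [e1, e2, indicator_of_mem (show (MeasurableEquiv.piFinSuccAbove (fun _ : Fin 3 => ℝ) 2 x) ∈
      Prod.fst ⁻¹' Ioo (-1 : ℝ) 1 from hx 2 (mem_univ _))]
    unfold aa
    rw [indicator_of_mem (hx 0 (mem_univ _)), indicator_of_mem (hx 1 (mem_univ _))]
    exact le_rfl
  · rw [indicator_of_notMem hx]
    exact zero_le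

end Pool.Agent.Lib.MP_3d1d78_an.P
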