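import Pool.Agent.Lib.MP_3d1d78_an.Weak

/-!
The map `ff` is smooth.
-/

set_option autoImplicit false

open Filter Topology

namespace Pool.Agent.Lib.MP_3d1d78_an

/-- The monomials closed under differentiation. -/
noncomputable def mono (k a b c d e : ℕ) (x : Fin 3 → ℝ) : ℝ :=
  Real.exp (-uu x) * uu x ^ (k + 1) * x 0 ^ a * x 1 ^ b * x 2 ^ c *
    Real.cos (x 2 * uu x) ^ d * Real.sin (x 2 * uu x) ^ e

theorem mono_zero {x : Fin 3 → ℝ} (h : qq x = 0) (k a b c d e : ℕ) : mono k a b c d e x = 0 := by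
  simp [mono, uu_zero h]

/-- The partial derivatives of `mono`. -/
noncomputable def dm (k a b c d e : ℕ) (x : Fin 3 → ℝ) : Fin 3 → ℝ :=
  ![mono (k + 3) (a + 1) b c d e x - (k + 1) * mono (k + 2) (a + 1) b c d e x
      + a * mono k (a - 1) b c d e x + d * mono (k + 3) (a + 1) b (c + 1) (d - 1) (e + 1) x
      - e * mono (k + 3) (a + 1) b (c + 1) (d + 1) (e - 1) x,
    mono (k + 3) a (b + 1) c d e x - (k + 1) * mono (k + 2) a (b + 1) c d e x
      + b * mono k a (b - 1) c d e x + d * mono (k + 3) a (b + 1) (c + 1) (d - 1) (e + 1) x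
      - e * mono (k + 3) a (b + 1) (c + 1) (d + 1) (e - 1) x,
    c * mono k a b (c - 1) d e x - d * mono (k + 1) a b c (d - 1) (e + 1) x
      + e * mono (k + 1) a b c (d + 1) (e - 1) x]

noncomputable def dmL (k a b c d e : ℕ) (x : Fin 3 → ℝ) : (Fin 3 → ℝ) →L[ℝ] ℝ :=
  ∑ j, dm k a b c d e x j • p j

theorem mono_bound (k a b c d e : ℕ) (x : Fin 3 → ℝ) :
    |mono k a b c d e x| ≤ (k + 3).factorial * (|x 0| ^ a * |x 1| ^ b * |x 2| ^ c) * qq x := by
  rcases (qq_nonneg x).eq_or_lt with h | h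
  · rw [mono_zero h.symm, ← h]; simp
  have hu := uu_pos h
  have husq := uu_sq h
  have hE := Real.exp_pos (-uu x)
  have h1 : Real.exp (-uu x) * uu x ^ (k + 1) ≤ (k + 3).factorial * qq x := by
    have h2 := Real.pow_div_factorial_le_exp (uu x) hu.le (k + 3)
    rw [div_le_iff₀ (by positivity)] at h2
    have h3 : uu x ^ (k + 1) = uu x ^ (k + 3) * qq x := by
      have : uu x ^ (k + 3) = uu x ^ (k + 1) * uu x ^ 2 := by ring
      rw [this, mul_assoc]
      unfold qq
      rw [husq, mul_one]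
    rw [h3, Real.exp_neg, ← mul_assoc]
    apply mul_le_mul_of_nonneg_right _ h.le
    rw [inv_mul_le_iff₀ (Real.exp_pos _)]
    exact h2
  unfold mono
  rw [abs_mul, abs_mul, abs_mul, abs_mul, abs_mul, abs_of_pos (by positivity :
    0 < Real.exp (-uu x) * uu x ^ (k + 1)), abs_pow, abs_pow, abs_pow, abs_pow, abs_pow]
  have hC : |Real.cos (x 2 * uu x)| ^ d ≤ 1 := pow_le_one₀ (abs_nonneg _) (Real.abs_cos_le_one _)
  have hS : |Real.sin (x 2 * uu x)| ^ e ≤ 1 := pow_le_one₀ (abs_nonneg _) (Real.abs_sin_le_one _)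
  calc _ ≤ Real.exp (-uu x) * uu x ^ (k + 1) * |x 0| ^ a * |x 1| ^ b * |x 2| ^ c * 1 * 1 := by
        gcongr
    _ = Real.exp (-uu x) * uu x ^ (k + 1) * (|x 0| ^ a * |x 1| ^ b * |x 2| ^ c) := by ring
    _ ≤ ((k + 3).factorial * qq x) * (|x 0| ^ a * |x 1| ^ b * |x 2| ^ c) := by
        gcongr
    _ = _ := by ring

theorem hasFDerivAt_mono (k a b c d e : ℕ) (x : Fin 3 → ℝ) :
    HasFDerivAt (mono k a b c d e) (dmL k a b c d e x) x := by
  rcases (qq_nonneg x).eq_or_lt with h | h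
  · have hz : dmL k a b c d e x = 0 := by
      unfold dmL
      refine Finset.sum_eq_zero fun j _ => ?_
      have : dm k a b c d e x j = 0 := by
        fin_cases j <;> simp [dm, mono_zero h.symm]
      rw [this, zero_smul]
    rw [hz]
    have hx0 : x 0 = 0 := by
      have := h.symm; unfold qq at this
      nlinarith [sq_nonneg (x 0), sq_nonneg (x 1)]
    have hx1 : x 1 = 0 := by
      have := h.symm; unfold qq at this
      nlinarith [sq_nonneg (x 0), sq_nonneg (x 1)]
    refine Asymptotics.IsBigO.hasFDerivAt (n := 2) ?_ (by norm_num)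
    refine Asymptotics.IsBigO.of_bound
      ((k + 3).factorial * ((‖x‖ + 1) ^ a * (‖x‖ + 1) ^ b * (‖x‖ + 1) ^ c) * 2) ?_
    filter_upwards [Metric.ball_mem_nhds x one_pos] with y hy
    rw [mem_ball_iff_norm] at hy
    have hyn : ‖y‖ ≤ ‖x‖ + 1 := by
      have := norm_le_norm_add_norm_sub' y x
      linarith
    have hyi : ∀ i, |y i| ≤ ‖x‖ + 1 := fun i => (norm_le_pi_norm y i).trans hyn
    have hy0 : |y 0| ≤ ‖y - x‖ := by
      have := norm_le_pi_norm (y - x) 0
      simpa [hx0] using this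
    have hy1 : |y 1| ≤ ‖y - x‖ := by
      have := norm_le_pi_norm (y - x) 1
      simpa [hx1] using this
    have h1 : qq y ≤ 2 * ‖y - x‖ ^ 2 := by
      unfold qq
      have h2 : y 0 ^ 2 ≤ ‖y - x‖ ^ 2 := by
        rw [← sq_abs (y 0)]; gcongr
      have h3 : y 1 ^ 2 ≤ ‖y - x‖ ^ 2 := by
        rw [← sq_abs (y 1)]; gcongr
      linarith
    have hq := qq_nonneg y
    rw [Real.norm_eq_abs, norm_pow, norm_norm]
    calc |mono k a b c d e y| ≤ _ := mono_bound k a b c d e y
      _ ≤ (k + 3).factorial * ((‖x‖ + 1) ^ a * (‖x‖ + 1) ^ b * (‖x‖ + 1) ^ c) *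
          (2 * ‖y - x‖ ^ 2) := by
        have := hyi 0
        have := hyi 1
        have := hyi 2
        gcongr
      _ = _ := by ring
  · have hu := hasFDerivAt_uu h
    have hE := hu.neg.exp
    have h0 := hasFDerivAt_p 0 x
    have h1 := hasFDerivAt_p 1 x
    have h2 := hasFDerivAt_p 2 x
    have hzu := h2.mul hu
    have hS := hzu.sin
    have hC := hzu.cos
    have hall := (((((hE.mul (hu.pow (k + 1))).mul (h0.pow a)).mul (h1.pow b)).mul
      (h2.pow c)).mul (hC.pow d)).mul (hS.pow e)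
    refine hall.congr_fderiv ?_
    ext v
    simp [dmL, dm, mono, Fin.sum_univ_three]
    ring

theorem cd_congr {n : WithTop ℕ∞} {E F : Type*} [NormedAddCommGroup E] [NormedSpace ℝ E]
    [NormedAddCommGroup F] [NormedSpace ℝ F] {f g : E → F} (h : ContDiff ℝ n f)
    (hg : ∀ x, g x = f x) : ContDiff ℝ n g := by
  have : g = f := funext hg
  rw [this]
  exact h

theorem contDiff_mono : ∀ (n : ℕ) (k a b c d e : ℕ), ContDiff ℝ n (mono k a b c d e)
  | 0, k, a, b, c, d, e => by
    rw [Nat.cast_zero, contDiff_zero, continuous_iff_continuousAt]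
    intro x
    exact (hasFDerivAt_mono k a b c d e x).continuousAt
  | n + 1, k, a, b, c, d, e => by
    have ih := contDiff_mono n
    rw [Nat.cast_add, Nat.cast_one, contDiff_succ_iff_hasFDerivAt]
    refine ⟨dmL k a b c d e, ?_, hasFDerivAt_mono k a b c d e⟩
    unfold dmL
    have hj : ∀ j, ContDiff ℝ n (fun x => dm k a b c d e x j) := by
      intro j
      fin_cases j
      · exact ((((ih _ _ _ _ _ _).sub (contDiff_const.mul (ih _ _ _ _ _ _))).add
          (contDiff_const.mul (ih _ _ _ _ _ _))).add (contDiff_const.mul (ih _ _ _ _ _ _))).sub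
            (contDiff_const.mul (ih _ _ _ _ _ _))
      · exact ((((ih _ _ _ _ _ _).sub (contDiff_const.mul (ih _ _ _ _ _ _))).add
          (contDiff_const.mul (ih _ _ _ _ _ _))).add (contDiff_const.mul (ih _ _ _ _ _ _))).sub
            (contDiff_const.mul (ih _ _ _ _ _ _))
      · exact ((contDiff_const.mul (ih _ _ _ _ _ _)).sub
          (contDiff_const.mul (ih _ _ _ _ _ _))).add (contDiff_const.mul (ih _ _ _ _ _ _))
    refine ContDiff.sum fun j _ => ?_
    exact (hj j).smul contDiff_const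

theorem contDiff_DD (n : ℕ) (i j : Fin 3) : ContDiff ℝ n (fun x => DD x i j) := by
  have m := contDiff_mono n
  fin_cases i <;> fin_cases j
  · refine cd_congr ((m 3 1 1 0 0 0).sub (m 2 1 1 0 0 0)) fun x => ?_
    simp [DD, MM, mono]; ring
  · refine cd_congr (((m 0 0 0 0 0 0).add (m 3 0 2 0 0 0)).sub (m 2 0 2 0 0 0)) fun x => ?_
    simp [DD, MM, mono]; ring
  · refine cd_congr (contDiff_const (c := (0 : ℝ))) fun x => ?_
    simp [DD, MM]
  · refine cd_congr ((m 2 1 0 0 0 1).sub (m 2 1 0 1 1 0)) fun x => ?_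
    simp [DD, MM, mono]; ring
  · refine cd_congr ((m 2 0 1 0 0 1).sub (m 2 0 1 1 1 0)) fun x => ?_
    simp [DD, MM, mono]; ring
  · refine cd_congr (m 0 0 0 0 1 0) fun x => ?_
    simp [DD, MM, mono]
  · refine cd_congr (((((m 0 0 0 0 1 0).sub (m 2 2 0 0 1 0)).add (m 3 2 0 0 1 0))).add
      (m 3 2 0 1 0 1)) fun x => ?_
    simp [DD, MM, mono]; ring
  · refine cd_congr (((m 3 1 1 0 1 0).sub (m 2 1 1 0 1 0)).add (m 3 1 1 1 0 1)) fun x => ?_
    simp [DD, MM, mono]; ring
  · refine cd_congr (m 1 1 0 0 0 1).neg fun x => ?_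
    simp [DD, MM, mono]; ring

theorem contDiff_ff_nat (n : ℕ) (i : Fin 3) : ContDiff ℝ ((n : WithTop ℕ∞) + 1) (fun x => ff x i) := by
  rw [contDiff_succ_iff_hasFDerivAt]
  refine ⟨fun x => row x i, ?_, fun x => hasFDerivAt_ff x i⟩
  unfold row
  refine ContDiff.sum fun j _ => ?_
  exact (contDiff_DD n i j).smul contDiff_const

/-- The map `ff` is smooth. -/
theorem contDiff_ff : ContDiff ℝ ((⊤ : ℕ∞) : WithTop ℕ∞) ff := by
  rw [contDiff_pi]
  intro i
  rw [contDiff_infty]
  intro n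
  exact (contDiff_ff_nat n i).of_le le_self_add

theorem hasFDerivAt_ff_all (x : Fin 3 → ℝ) :
    HasFDerivAt ff (ContinuousLinearMap.pi fun i => row x i) x :=
  hasFDerivAt_pi.2 fun i => hasFDerivAt_ff x i

end Pool.Agent.Lib.MP_3d1d78_an
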