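import Pool.Agent.Lib.MP_3d1d78_an.Deriv

/-!
Boundedness and measurability of `ff` and `DD` on the cube, and the weak derivative.
-/

set_option autoImplicit false

open MeasureTheory Set

namespace Pool.Agent.Lib.MP_3d1d78_an

/-- The open cube. -/
def cube : Set (Fin 3 → ℝ) := Set.pi univ fun _ => Ioo (-1 : ℝ) 1

theorem isOpen_cube : IsOpen cube := isOpen_set_pi finite_univ fun _ _ => isOpen_Ioo

theorem isConnected_cube : IsConnected cube := by
  have h : Convex ℝ cube := convex_pi fun _ _ => convex_Ioo _ _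
  exact ⟨⟨0, fun i _ => by simp⟩, h.isPreconnected⟩

theorem volume_cube_lt : volume cube < ⊤ := by
  unfold cube
  rw [volume_pi_pi]
  exact ENNReal.prod_lt_top fun i _ => by simp

theorem measurable_uu : Measurable uu := by
  unfold uu
  fun_prop

theorem measurable_ff (i : Fin 3) : Measurable fun x => ff x i := (continuous_ff i).measurable

theorem measurable_DD (i j : Fin 3) : Measurable fun x => DD x i j := by
  have h := measurable_uu
  have h0 : Measurable fun x : Fin 3 → ℝ => x 0 := measurable_pi_apply 0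
  have h1 : Measurable fun x : Fin 3 → ℝ => x 1 := measurable_pi_apply 1
  have h2 : Measurable fun x : Fin 3 → ℝ => x 2 := measurable_pi_apply 2
  fin_cases i <;> fin_cases j <;> simp [DD, MM] <;> fun_prop

theorem abs_x0_uu_le (x : Fin 3 → ℝ) : |x 0 * uu x| ≤ 1 := by
  rcases (qq_nonneg x).eq_or_lt with h | h
  · rw [uu_zero h.symm]; simp
  · rw [← sq_le_one_iff_abs_le_one]
    nlinarith [sq_nonneg (x 1 * uu x), uu_sq h]

theorem abs_x1_uu_le (x : Fin 3 → ℝ) : |x 1 * uu x| ≤ 1 := by
  rcases (qq_nonneg x).eq_or_lt with h | h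
  · rw [uu_zero h.symm]; simp
  · rw [← sq_le_one_iff_abs_le_one]
    nlinarith [sq_nonneg (x 0 * uu x), uu_sq h]

theorem abs_mul_le_of {a b A B : ℝ} (ha : |a| ≤ A) (hb : |b| ≤ B) : |a * b| ≤ A * B := by
  rw [abs_mul]
  exact mul_le_mul ha hb (abs_nonneg _) ((abs_nonneg _).trans ha)

theorem abs_MM_le {c s C S u z : ℝ} (hc : |c| ≤ 1) (hs : |s| ≤ 1) (hC : |C| ≤ 1) (hS : |S| ≤ 1)
    (hu : 0 ≤ u) (hz : |z| ≤ 1) (i j : Fin 3) : |MM c s C S u z i j| ≤ 2 + 2 * u := by
  have h1 : |u - 1| ≤ 1 + u := by rw [abs_le]; constructor <;> linarith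
  have hcs : |c * s| ≤ 1 := by simpa using abs_mul_le_of hc hs
  have hss : |s ^ 2| ≤ 1 := by rw [sq]; simpa using abs_mul_le_of hs hs
  have hcc : |c ^ 2| ≤ 1 := by rw [sq]; simpa using abs_mul_le_of hc hc
  have hzC : |z * C| ≤ 1 := by simpa using abs_mul_le_of hz hC
  have hzS : |z * S| ≤ 1 := by simpa using abs_mul_le_of hz hS
  have hzCS : |z * C - S| ≤ 2 := by
    have := abs_sub (z * C) S
    linarith
  have hcu : |c * u| ≤ u := by
    have := abs_mul_le_of hc (le_of_eq (abs_of_nonneg hu)); simpa using this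
  have hsu : |s * u| ≤ u := by
    have := abs_mul_le_of hs (le_of_eq (abs_of_nonneg hu)); simpa using this
  have hq : |(1 - u) * C - u * z * S| ≤ 1 + 2 * u := by
    have e : (1 - u) * C - u * z * S = C - (u * C + u * (z * S)) := by ring
    rw [e]
    have a1 := abs_sub C (u * C + u * (z * S))
    have a2 := abs_add_le (u * C) (u * (z * S))
    have a3 := abs_mul_le_of (le_of_eq (abs_of_nonneg hu)) hC
    have a4 := abs_mul_le_of (le_of_eq (abs_of_nonneg hu)) hzS
    linarith
  fin_cases i <;> fin_cases j <;> simp only [MM, Matrix.of_apply, Matrix.cons_val', Matrix.cons_val_zero,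
    Matrix.cons_val_one, Matrix.cons_val, Fin.zero_eta, Fin.mk_one, Fin.reduceFinMk, Matrix.cons_val_fin_one]
  · have := abs_mul_le_of hcs h1; linarith
  · have a1 := abs_add_le 1 (s ^ 2 * (u - 1))
    have a2 := abs_mul_le_of hss h1
    rw [abs_one] at a1
    linarith
  · rw [abs_zero]; linarith
  · rw [abs_neg]
    have := abs_mul_le_of hcu hzCS
    linarith
  · rw [abs_neg]
    have := abs_mul_le_of hsu hzCS
    linarith
  · linarith
  · have a1 := abs_sub C (c ^ 2 * ((1 - u) * C - u * z * S))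
    have a2 := abs_mul_le_of hcc hq
    linarith
  · rw [abs_neg]
    have := abs_mul_le_of hcs hq
    linarith
  · rw [abs_neg]
    have := abs_mul_le_of hc hS
    linarith

theorem abs_DD_le {x : Fin 3 → ℝ} (hx : x ∈ cube) (i j : Fin 3) : |DD x i j| ≤ 6 := by
  have hu := uu_nonneg x
  have hz : |x 2| ≤ 1 := by
    have := hx 2 (mem_univ _)
    rw [abs_le]; exact ⟨this.1.le, this.2.le⟩
  have hM := abs_MM_le (abs_x0_uu_le x) (abs_x1_uu_le x) (Real.abs_cos_le_one (x 2 * uu x))
    (Real.abs_sin_le_one (x 2 * uu x)) hu hz i j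
  have hE : 0 < Real.exp (-uu x) := Real.exp_pos _
  have h1 : Real.exp (-uu x) * uu x ≤ 1 := by
    rw [Real.exp_neg, inv_mul_le_iff₀ (Real.exp_pos _), mul_one]
    linarith [Real.add_one_le_exp (uu x)]
  have h2 : Real.exp (-uu x) * uu x ^ 2 ≤ 2 := by
    rw [Real.exp_neg, inv_mul_le_iff₀ (Real.exp_pos _)]
    nlinarith [Real.quadratic_le_exp_of_nonneg hu]
  have h3 : DD x i j = (Real.exp (-uu x) * uu x) * MM (x 0 * uu x) (x 1 * uu x)
    (Real.cos (x 2 * uu x)) (Real.sin (x 2 * uu x)) (uu x) (x 2) i j := by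
    simp [DD]
  rw [h3, abs_mul, abs_of_nonneg (mul_nonneg hE.le hu)]
  calc _ ≤ Real.exp (-uu x) * uu x * (2 + 2 * uu x) := by gcongr
    _ = 2 * (Real.exp (-uu x) * uu x) + 2 * (Real.exp (-uu x) * uu x ^ 2) := by ring
    _ ≤ 6 := by linarith

instance : IsFiniteMeasure (volume.restrict cube) := ⟨by
  rw [Measure.restrict_apply MeasurableSet.univ, univ_inter]; exact volume_cube_lt⟩

theorem memLp_DD (i j : Fin 3) (q : ENNReal) : MemLp (fun x => DD x i j) q (volume.restrict cube) := by
  refine MemLp.of_bound (measurable_DD i j).aestronglyMeasurable 6 ?_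
  filter_upwards [ae_restrict_mem isOpen_cube.measurableSet] with x hx
  exact abs_DD_le hx i j

theorem memLp_ff (i : Fin 3) (q : ENNReal) : MemLp (fun x => ff x i) q (volume.restrict cube) := by
  refine MemLp.of_bound (measurable_ff i).aestronglyMeasurable 4 ?_
  filter_upwards [ae_restrict_mem isOpen_cube.measurableSet] with x hx
  have h0 := hx 0 (mem_univ _)
  have h1 := hx 1 (mem_univ _)
  have h := abs_ff_le (x := x) i
  have h2 : qq x ≤ 2 := by
    unfold qq
    nlinarith [h0.1, h0.2, h1.1, h1.2]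
  rw [Real.norm_eq_abs]
  linarith

theorem weak_deriv (φ : (Fin 3 → ℝ) → ℝ) (hφ : ContDiff ℝ ((⊤ : ℕ∞) : WithTop ℕ∞) φ)
    (hc : HasCompactSupport φ) (hs : tsupport φ ⊆ cube) (i j : Fin 3) :
    ∫ x in cube, ff x i * fderiv ℝ φ x (Pi.single j 1) = - ∫ x in cube, DD x i j * φ x := by
  have hφ1 : ContDiff ℝ 1 φ := hφ.of_le (by exact_mod_cast le_top)
  have hφ0 : ∀ x, x ∉ cube → φ x = 0 := fun x hx => image_eq_zero_of_notMem_tsupport fun h => hx (hs h)
  have hφ0' : ∀ x, x ∉ cube → fderiv ℝ φ x (Pi.single j 1) = 0 := fun x hx => by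
    have h := (tsupport_fderiv_subset ℝ (f := φ))
    have : x ∉ tsupport (fderiv ℝ φ) := fun h' => hx (hs (h h'))
    rw [image_eq_zero_of_notMem_tsupport this]; rfl
  rw [setIntegral_eq_integral_of_forall_compl_eq_zero (fun x hx => by rw [hφ0' x hx, mul_zero]),
    setIntegral_eq_integral_of_forall_compl_eq_zero (fun x hx => by rw [hφ0 x hx, mul_zero])]
  have hdc : Continuous fun x => fderiv ℝ φ x (Pi.single j 1) :=
    (hφ1.continuous_fderiv (by norm_num)).clm_apply continuous_const
  have hds : HasCompactSupport fun x => fderiv ℝ φ x (Pi.single j 1) := hc.fderiv_apply ℝ _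
  have hint : Integrable φ := hφ1.continuous.integrable_of_hasCompactSupport hc
  have h := integral_bilinear_hasFDerivAt_right_eq_neg_left_of_integrable
    (μ := volume) (f := fun x => ff x i) (f' := fun x => row x i) (g := φ) (g' := fderiv ℝ φ)
    (v := Pi.single j 1) (B := ContinuousLinearMap.mul ℝ ℝ) ?_ ?_ ?_ ?_ ?_
  · simpa [row_single] using h
  · have hm : Measurable (cube.indicator fun x => DD x i j) :=
      (measurable_DD i j).indicator isOpen_cube.measurableSet
    have h1 := Integrable.bdd_mul (c := 6) hint hm.aestronglyMeasurable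
      (Filter.Eventually.of_forall fun x => by
        by_cases hx : x ∈ cube
        · rw [indicator_of_mem hx]; exact abs_DD_le hx i j
        · rw [indicator_of_notMem hx]; simp)
    refine h1.congr (Filter.Eventually.of_forall fun x => ?_)
    simp only [ContinuousLinearMap.mul_apply', row_single]
    by_cases hx : x ∈ cube
    · rw [indicator_of_mem hx]
    · rw [hφ0 x hx, mul_zero, mul_zero]
  · exact ((continuous_ff i).mul hdc).integrable_of_hasCompactSupport hds.mul_left
  · exact ((continuous_ff i).mul hφ1.continuous).integrable_of_hasCompactSupport hc.mul_left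
  · intro x _
    exact hasFDerivAt_ff x i
  · intro x _
    exact ((hφ1.differentiable (by norm_num)) x).hasFDerivAt

end Pool.Agent.Lib.MP_3d1d78_an
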